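import Pool.Agent.Helper6_lin.PackMain

/-!
Existence of the extremal colouring.
-/

set_option linter.unusedSectionVars false
set_option linter.unusedTactic false
set_option linter.unnecessarySeqFocus false
set_option linter.unusedVariables false

namespace Pool.Agent.Helper6_lin

open Finset

variable {V : Type} [Fintype V] [DecidableEq V] {G : SimpleGraph V} [DecidableRel G.Adj]

lemma cpl_cpl (c : V → Bool) : cpl (cpl c) = c := by
  funext v; simp [cpl]

lemma exists_opt_le_one (hG : G.IsRegularOfDegree 3) :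
    ∃ c : V → Bool, Opt G c ∧ ∀ v, md G c v ≤ 1 := by
  classical
  obtain ⟨c0, hc0⟩ := exists_opt (G := G)
  set s : Finset (V → Bool) := Finset.univ.filter (fun c => Opt G c ∧ 0 ≤ imb c) with hs
  have hne : s.Nonempty := by
    rcases le_total 0 (imb c0) with h | h
    · exact ⟨c0, by rw [hs, Finset.mem_filter]; exact ⟨Finset.mem_univ _, hc0, h⟩⟩
    · refine ⟨cpl c0, ?_⟩
      rw [hs, Finset.mem_filter]
      exact ⟨Finset.mem_univ _, Opt_cpl hc0, by rw [imb_cpl]; omega⟩
  obtain ⟨c, hc, hmax⟩ := Finset.exists_max_image s (fun c => imb c) hne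
  rw [hs, Finset.mem_filter] at hc
  obtain ⟨_, hO, hi⟩ := hc
  refine ⟨c, hO, ?_⟩
  intro v
  by_contra hv
  -- a true vertex of degree two is impossible
  have noT : ∀ (c' : V → Bool), Opt G c' → imb c' = imb c → ∀ v, c' v = true → md G c' v ≤ 1 := by
    intro c' hO' hi' v cv
    by_contra hv
    have h2 := opt_true_le_two hG hO' (by omega) cv
    have o := opt_flip_true hG hO' (by omega) cv (by omega)
    have i := imb_flp_true (c := c') cv
    have := hmax (flp c' v) (by rw [hs, Finset.mem_filter]; exact ⟨Finset.mem_univ _, o, by omega⟩)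

    omega
  cases cv : c v
  · rcases lt_or_eq_of_le hi with h | h
    · exact hv (opt_false_le_one hG hO h cv)
    · have := noT (cpl c) (Opt_cpl hO) (by rw [imb_cpl]; omega) v (by simp [cpl, cv])
      rw [md_cpl] at this
      exact hv this
  · exact hv (noT c hO rfl v cv)

lemma exists_PS (hG : G.IsRegularOfDegree 3) (hno : ∀ c : V → Bool, ¬ Bal G c Finset.univ) :
    ∃ c : V → Bool, PS G c := by
  classical
  obtain ⟨c0, hO0, hm0⟩ := exists_opt_le_one hG
  set s : Finset (V → Bool) := Finset.univ.filter (fun c => Opt G c ∧ ∀ v, md G c v ≤ 1) with hs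
  obtain ⟨c, hc, hmin⟩ := Finset.exists_min_image s (fun c => |imb c|)
    ⟨c0, by rw [hs, Finset.mem_filter]; exact ⟨Finset.mem_univ _, hO0, hm0⟩⟩
  rw [hs, Finset.mem_filter] at hc
  obtain ⟨_, hO, hm⟩ := hc
  have hmin' : ∀ c', Opt G c' → (∀ v, md G c' v ≤ 1) → |imb c| ≤ |imb c'| := by
    intro c' h1 h2
    exact hmin c' (by rw [hs, Finset.mem_filter]; exact ⟨Finset.mem_univ _, h1, h2⟩)
  rcases lt_trichotomy (imb c) 0 with h | h | h
  · refine ⟨cpl c, hG, Opt_cpl hO, ?_, ?_, ?_⟩
    · intro v; rw [md_cpl]; exact hm v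
    · rw [imb_cpl]; omega
    · intro c' h1 h2
      have := hmin' c' h1 h2
      rw [imb_cpl]
      rw [abs_of_neg h] at this
      exact this
  · exact absurd (Bal_univ_of hG h (Bal_empty c) (fun u _ => hm u)) (hno c)
  · refine ⟨c, hG, hO, hm, h, ?_⟩
    intro c' h1 h2
    have := hmin' c' h1 h2
    rw [abs_of_pos h] at this
    exact this

lemma PS.noS_of_four {c : V → Bool} (P : PS G c) (hT : NoTri G) (h4 : 4 ≤ imb c) : NoS G c := by
  intro x y z w cx mx N ty mz mw
  have cz := nb_false cx mx N.a2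
  have cw := nb_false cx mx N.a3
  exact P.R3 h4 cx mx ty.1 ty.2.1 cz mz cw mw N.a1 N.a2 N.a3 N.ab N.ad N.bd
    (fun h => hT x y z N.a1 h N.a2) (fun h => hT x y w N.a1 h N.a3) (fun h => hT x z w N.a2 h N.a3)

/-- an optimal balanced colouring has vertices of same-colour degree two on one side only -/
lemma both2 (hG : G.IsRegularOfDegree 3) {c : V → Bool} (hO : Opt G c) (hi : imb c = 0) {w p : V}
    (cw : c w = false) (mw : 2 ≤ md G c w) (cp : c p = true) (mp : 2 ≤ md G c p) : False := by
  have h2 : md G c w ≤ 2 := by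
    have := opt_true_le_two hG (Opt_cpl hO) (by rw [imb_cpl]; omega) (v := w) (by simp [cpl, cw])
    rwa [md_cpl] at this
  have o := opt_flip_true hG (Opt_cpl hO) (by rw [imb_cpl]; omega) (v := w) (by simp [cpl, cw])
    (by rw [md_cpl]; omega)
  have i := imb_flp_true (c := cpl c) (v := w) (by simp [cpl, cw])
  rw [imb_cpl] at i
  have hpw : p ≠ w := by rintro rfl; rw [cw] at cp; exact absurd cp (by simp)
  have m : 2 ≤ md G (flp (cpl c) w) p := by
    by_cases a : G.Adj w p
    · rw [md_flp_diff a (by simp [cpl, cp, cw]), md_cpl]; omega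
    · rw [md_flp_far hpw a, md_cpl]; exact mp
  have := opt_false_le_one hG o (by omega) (v := p) (by rw [flp_ne _ hpw]; simp [cpl, cp])
  omega

end Pool.Agent.Helper6_lin
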