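import Pool.Agent.Helper6_lin.Pack

/-!
Several flips at once.
-/

set_option linter.unusedSectionVars false
set_option linter.unusedTactic false
set_option linter.unnecessarySeqFocus false

namespace Pool.Agent.Helper6_lin

open Finset

variable {V : Type} [Fintype V] [DecidableEq V] {G : SimpleGraph V} [DecidableRel G.Adj]

/-- flip the vertices of a list, one after the other -/
def flips (c : V → Bool) (L : List V) : V → Bool := L.foldl flp c

/-- the contribution of flipping `v` to the same-colour degree of `u` -/
def dl (G : SimpleGraph V) [DecidableRel G.Adj] (c : V → Bool) (v u : V) : ℤ :=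
  if G.Adj v u then (if c u = c v then -1 else 1) else 0

lemma dl_self (c : V → Bool) (u : V) : dl G c u u = 0 := by
  unfold dl; simp

lemma mdz_flp (hG : G.IsRegularOfDegree 3) (c : V → Bool) (v u : V) :
    (md G (flp c v) u : ℤ) = if u = v then 3 - (md G c u : ℤ) else md G c u + dl G c v u := by
  split_ifs with h
  · subst h
    have := md_flp_self hG c u
    omega
  · unfold dl
    by_cases ha : G.Adj v u
    · rw [if_pos ha]
      by_cases hc : c u = c v
      · rw [if_pos hc]
        have := md_flp_same ha hc
        omega
      · rw [if_neg hc]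
        have := md_flp_diff ha hc
        omega
    · rw [if_neg ha, md_flp_far h ha]; simp

lemma flips_notMem {L : List V} {c : V → Bool} {u : V} (h : u ∉ L) : flips c L u = c u := by
  induction L generalizing c with
  | nil => rfl
  | cons v L ih =>
    rw [List.mem_cons, not_or] at h
    show flips (flp c v) L u = c u
    rw [ih h.2, flp_ne _ h.1]

lemma flips_mem {L : List V} {c : V → Bool} {u : V} (hn : L.Nodup) (h : u ∈ L) :
    flips c L u = !(c u) := by
  induction L generalizing c with
  | nil => exact absurd h (by simp)
  | cons v L ih =>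
    rw [List.nodup_cons] at hn
    show flips (flp c v) L u = _
    rcases List.mem_cons.mp h with h' | h'
    · subst h'
      rw [flips_notMem hn.1, flp_same]
    · have huv : u ≠ v := fun e => hn.1 (e ▸ h')
      rw [ih hn.2 h', flp_ne _ huv]

lemma dl_flp_ne {c : V → Bool} {v w u : V} (h1 : w ≠ v) (h2 : u ≠ v) :
    dl G (flp c v) w u = dl G c w u := by
  unfold dl
  rw [flp_ne _ h1, flp_ne _ h2]

lemma dl_flp_eq {c : V → Bool} {w u : V} (h1 : w ≠ u) :
    dl G (flp c u) w u = - dl G c w u := by
  unfold dl
  rw [flp_ne _ h1, flp_same]
  split_ifs with h2 h3 h4 h5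
  · exfalso; revert h3 h4; cases c u <;> cases c w <;> simp
  · rfl
  · norm_num
  · exfalso; revert h3 h5; cases c u <;> cases c w <;> simp
  · rfl

lemma md_flips (hG : G.IsRegularOfDegree 3) {L : List V} (c : V → Bool) (hn : L.Nodup) (u : V) :
    (md G (flips c L) u : ℤ) = if u ∈ L then 3 - ((md G c u : ℤ) + (L.map (fun v => dl G c v u)).sum)
      else (md G c u : ℤ) + (L.map (fun v => dl G c v u)).sum := by
  induction L generalizing c with
  | nil => simp [flips]
  | cons v L ih =>
    rw [List.nodup_cons] at hn
    have h := ih (flp c v) hn.2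
    show (md G (flips (flp c v) L) u : ℤ) = _
    rw [h, mdz_flp hG]
    by_cases huv : u = v
    · subst huv
      have hm : ∀ w ∈ L, dl G (flp c u) w u = - dl G c w u := by
        intro w hw
        exact dl_flp_eq (by rintro rfl; exact hn.1 hw)
      have hs : (L.map (fun w => dl G (flp c u) w u)).sum = - (L.map (fun w => dl G c w u)).sum := by
        rw [List.map_congr_left hm]
        clear hm h ih hn
        induction L with
        | nil => simp
        | cons w L ih => simp only [List.map_cons, List.sum_cons, ih]; ring
      rw [hs]
      simp only [hn.1, if_false, if_true, List.mem_cons, true_or, List.map_cons, List.sum_cons,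
        dl_self]
      ring
    · have hm : ∀ w ∈ L, dl G (flp c v) w u = dl G c w u := by
        intro w hw
        exact dl_flp_ne (by rintro rfl; exact hn.1 hw) huv
      rw [List.map_congr_left hm]
      simp only [List.mem_cons, huv, false_or, if_false, List.map_cons, List.sum_cons]
      split_ifs <;> ring

lemma dl_far {c : V → Bool} {v u : V} (h : ¬ G.Adj v u) : dl G c v u = 0 := by
  unfold dl; rw [if_neg h]

lemma dl_same {c : V → Bool} {v u : V} (h : G.Adj v u) (hc : c u = c v) : dl G c v u = -1 := by
  unfold dl; rw [if_pos h, if_pos hc]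

lemma dl_diff {c : V → Bool} {v u : V} (h : G.Adj v u) (hc : c u ≠ c v) : dl G c v u = 1 := by
  unfold dl; rw [if_pos h, if_neg hc]

end Pool.Agent.Helper6_lin
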