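import Pool.Agent.Helper6_lin.Bal

/-!
From blocks to linear forests with components of at most four vertices.
-/

set_option linter.unusedSectionVars false
set_option linter.unusedTactic false
set_option linter.unnecessarySeqFocus false
set_option linter.unusedVariables false

namespace Pool.Agent.Helper6_lin

open Finset

/-- a block of `u`: a sequence of vertices containing `u`, closed under adjacency, in which adjacency
holds only between consecutive vertices -/
def HB {W : Type} (H : SimpleGraph W) (u : W) : Prop :=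
  ∃ (k : ℕ) (P : Fin k → W), k ≤ 4 ∧ (∃ i, P i = u) ∧
    ∀ i v, H.Adj (P i) v → ∃ j, v = P j ∧ (i.val + 1 = j.val ∨ j.val + 1 = i.val)

lemma reach_blk {W : Type} {H : SimpleGraph W} {k : ℕ} {P : Fin k → W}
    (h : ∀ i v, H.Adj (P i) v → ∃ j, v = P j ∧ (i.val + 1 = j.val ∨ j.val + 1 = i.val))
    {u v : W} (hu : ∃ i, P i = u) (hr : H.Reachable u v) : ∃ i, P i = v := by
  obtain ⟨p⟩ := hr
  induction p with
  | nil => exact hu
  | cons ha p ih =>
    apply ih
    obtain ⟨i, rfl⟩ := hu
    obtain ⟨j, hj, _⟩ := h i _ ha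
    exact ⟨j, hj.symm⟩

lemma acyclic_of_HB {W : Type} {H : SimpleGraph W} (h : ∀ u, HB H u) : H.IsAcyclic := by
  classical
  intro v p hp
  obtain ⟨k, P, _, hv, hcl⟩ := h v
  have hsup : ∀ w ∈ p.support, ∃ i, P i = w := by
    intro w hw
    exact reach_blk hcl hv ⟨p.takeUntil w hw⟩
  set S : Finset (Fin k) := Finset.univ.filter (fun i => P i ∈ p.support) with hS
  have hne : S.Nonempty := by
    obtain ⟨i, hi⟩ := hv
    exact ⟨i, by rw [hS, Finset.mem_filter]; exact ⟨Finset.mem_univ _, by rw [hi]; simp⟩⟩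
  obtain ⟨i0, hi0, hmax⟩ := Finset.exists_max_image S (fun i => i.val) hne
  rw [hS, Finset.mem_filter] at hi0
  have hw := hi0.2
  set q := p.rotate (P i0) hw with hq
  have hcyc : q.IsCycle := hp.rotate hw
  have hnil : ¬ q.Nil := hcyc.not_nil
  have hsnd := q.adj_snd hnil
  have hpen := q.adj_penultimate hnil
  obtain ⟨j, hj, hj2⟩ := hcl i0 _ hsnd
  obtain ⟨j', hj', hj2'⟩ := hcl i0 _ hpen.symm
  have m1 : q.snd ∈ p.support := by
    rw [← p.mem_support_rotate_iff (P i0) hw]
    exact q.getVert_mem_support 1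
  have m2 : q.penultimate ∈ p.support := by
    rw [← p.mem_support_rotate_iff (P i0) hw]
    exact q.getVert_mem_support _
  have l1 := hmax j (by rw [hS, Finset.mem_filter]; exact ⟨Finset.mem_univ _, by rw [← hj]; exact m1⟩)
  have l2 := hmax j' (by rw [hS, Finset.mem_filter]; exact ⟨Finset.mem_univ _, by rw [← hj']; exact m2⟩)
  have : j = j' := by
    apply Fin.ext
    omega
  apply hcyc.snd_ne_penultimate
  rw [hj, hj', this]

lemma comp_of_HB {W : Type} {H : SimpleGraph W} (h : ∀ u, HB H u) (C : H.ConnectedComponent) :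
    C.supp.ncard ≤ 4 := by
  classical
  induction C using SimpleGraph.ConnectedComponent.ind with
  | _ u =>
    obtain ⟨k, P, hk, hu, hcl⟩ := h u
    have hsub : (H.connectedComponentMk u).supp ⊆ Set.range P := by
      intro v hv
      rw [SimpleGraph.ConnectedComponent.mem_supp_iff, SimpleGraph.ConnectedComponent.eq] at hv
      exact reach_blk hcl hu hv.symm
    have h1 := Set.ncard_le_ncard hsub (Set.finite_range P)
    have h2 : (Set.range P).ncard ≤ k := by
      have : Set.range P = ↑(Finset.univ.image P) := by simp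
      rw [this, Set.ncard_coe_finset]
      exact Finset.card_image_le.trans (by simp)
    omega

lemma deg_of_HB {W : Type} {H : SimpleGraph W} (h : ∀ u, HB H u) (u : W) :
    (H.neighborSet u).ncard ≤ 2 := by
  classical
  obtain ⟨k, P, hk, ⟨i, hi⟩, hcl⟩ := h u
  subst hi
  have hsub : H.neighborSet (P i) ⊆
      ↑((Finset.univ.filter (fun j : Fin k => i.val + 1 = j.val ∨ j.val + 1 = i.val)).image P) := by
    intro v hv
    obtain ⟨j, hj, hj2⟩ := hcl i v hv
    simp only [Finset.coe_image, Set.mem_image, Finset.mem_coe, Finset.mem_filter,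
      Finset.mem_univ, true_and]
    exact ⟨j, hj2, hj.symm⟩
  have h1 := Set.ncard_le_ncard hsub (Finset.finite_toSet _)
  rw [Set.ncard_coe_finset] at h1
  have h2 : (Finset.univ.filter (fun j : Fin k => i.val + 1 = j.val ∨ j.val + 1 = i.val)).card ≤ 2 := by
    have : (Finset.univ.filter (fun j : Fin k => i.val + 1 = j.val ∨ j.val + 1 = i.val)).image
        (fun j => j.val) ⊆ {i.val + 1, i.val - 1} := by
      intro a ha
      simp only [Finset.mem_image, Finset.mem_filter, Finset.mem_univ, true_and] at ha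
      obtain ⟨j, hj, rfl⟩ := ha
      simp only [Finset.mem_insert, Finset.mem_singleton]
      omega
    have h3 := Finset.card_le_card this
    rw [Finset.card_image_of_injective _ Fin.val_injective] at h3
    exact h3.trans Finset.card_le_two
  exact h1.trans (Finset.card_image_le.trans h2)

variable {V : Type} [Fintype V] [DecidableEq V] {G : SimpleGraph V} [DecidableRel G.Adj]

/-- blocks of the graph induced on a colour class -/
lemma HB_induce {c : V → Bool} {X : Finset V} {b : Bool} {S : Set V}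
    (hS : ∀ v, v ∈ S ↔ c v = b) (u : S) (h : Blk G c X u.1) : HB (G.induce S) u := by
  classical
  obtain ⟨k, P, hk, hinj, _, ⟨i, hi⟩, hc, hcl⟩ := h
  have hall : ∀ j, P j ∈ S := fun j => (hS _).mpr (by rw [hc j]; exact (hS _).mp u.2)
  refine ⟨k, fun j => ⟨P j, hall j⟩, hk, ⟨i, Subtype.ext hi⟩, ?_⟩
  intro j v hv
  obtain ⟨j', hj', hj2⟩ := hcl j v.1 hv (by rw [(hS _).mp (hall j)]; exact (hS _).mp v.2)
  exact ⟨j', Subtype.ext hj', hj2⟩

/-- the final form -/
theorem final_of_Bal {c : V → Bool} (h : Bal G c Finset.univ) :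
    ∃ S : Set V,
      S.ncard = Sᶜ.ncard ∧
      (∀ c : (G.induce S).ConnectedComponent, c.supp.ncard ≤ 4) ∧
      (∀ c : (G.induce Sᶜ).ConnectedComponent, c.supp.ncard ≤ 4) ∧
      (G.induce S).IsAcyclic ∧
      (∀ v, ((G.induce S).neighborSet v).ncard ≤ 2) ∧
      (G.induce Sᶜ).IsAcyclic ∧
      (∀ v, ((G.induce Sᶜ).neighborSet v).ncard ≤ 2) ∧
      Nonempty (G.induce S ≃g G.induce Sᶜ) := by
  classical
  obtain ⟨hcl, hb, f, hf⟩ := h
  have hf' := fun u => hf u (Finset.mem_univ u)
  have hinv : Function.Involutive f := fun u => (hf' u).2.1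
  set S : Set V := {v | c v = true} with hS
  have mS : ∀ v, v ∈ S ↔ c v = true := fun v => Iff.rfl
  have mS' : ∀ v, v ∈ Sᶜ ↔ c v = false := fun v => by
    rw [Set.mem_compl_iff, mS]; simp
  have h1 : ∀ u : S, HB (G.induce S) u := fun u => HB_induce mS u (hb u.1 (Finset.mem_univ _))
  have h2 : ∀ u : (Sᶜ : Set V), HB (G.induce Sᶜ) u := fun u =>
    HB_induce mS' u (hb u.1 (Finset.mem_univ _))
  have e : G.induce S ≃g G.induce Sᶜ := by
    refine { toFun := fun v => ⟨f v.1, ?_⟩, invFun := fun v => ⟨f v.1, ?_⟩, left_inv := ?_,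
             right_inv := ?_, map_rel_iff' := ?_ }
    · rw [mS', (hf' v.1).2.2.1, (mS _).mp v.2]; rfl
    · rw [mS, (hf' v.1).2.2.1, (mS' _).mp v.2]; rfl
    · intro v; apply Subtype.ext; exact hinv v.1
    · intro v; apply Subtype.ext; exact hinv v.1
    · intro a b
      exact ((hf' a.1).2.2.2 b.1 (Finset.mem_univ _) (by
        rw [(mS _).mp a.2, (mS _).mp b.2])).symm
  refine ⟨S, ?_, comp_of_HB h1, comp_of_HB h2, acyclic_of_HB h1, deg_of_HB h1, acyclic_of_HB h2,
    deg_of_HB h2, ⟨e⟩⟩
  exact Set.ncard_congr' e.toEquiv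

end Pool.Agent.Helper6_lin
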