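import Pool.Agent.Helper6_lin.Petersen

/-!
Assembly: every cubic graph without triangles and quadrilaterals has a bisection with isomorphic
halves.
-/

set_option linter.unusedSectionVars false
set_option linter.unusedTactic false
set_option linter.unnecessarySeqFocus false
set_option linter.unusedVariables false

namespace Pool.Agent.Helper6_lin

open Finset

variable {V : Type} [Fintype V] [DecidableEq V] {G : SimpleGraph V} [DecidableRel G.Adj]

/-- a closed ten-vertex set carrying a balanced colouring -/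
lemma Hy.piece {c : V → Bool} (H : Hy G c) {x y z w : V} (S : S3 G c x y z w) :
    ∃ (K : Finset V) (c0 : V → Bool), x ∈ K ∧ (∀ u ∈ K, ∀ v, G.Adj u v → v ∈ K) ∧
      ∀ c' : V → Bool, (∀ u ∈ K, c' u = c0 u) → Bal G c' K := by
  have P := H.P
  have hT := H.hT
  have hG := P.reg
  have cx := S.cx
  have cy := S.ty.1
  have cz := S.tz.1
  have cw := S.tw.1
  obtain ⟨yb, y2, Ny, cyb, cy2⟩ := split1' hG S.ty.2.1 S.N.a1.symm (by rw [cx, cy]; simp)
  obtain ⟨zb, z2, Nz, czb, cz2⟩ := split1' hG S.tz.2.1 S.N.a2.symm (by rw [cx, cz]; simp)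
  obtain ⟨wb, w2, Nw, cwb, cw2⟩ := split1' hG S.tw.2.1 S.N.a3.symm (by rw [cx, cw]; simp)
  rw [cy] at cyb cy2
  rw [cz] at czb cz2
  rw [cw] at cwb cw2
  replace cy2 : c y2 = true := by rw [cy2]; rfl
  replace cz2 : c z2 = true := by rw [cz2]; rfl
  replace cw2 : c w2 = true := by rw [cw2]; rfl
  obtain ⟨y2zb, y2wb⟩ := H.close S Ny.a3 cy2 Ny.bd.symm Nz.a1 czb Nw.a1 cwb
  obtain ⟨z2wb, z2yb⟩ := H.close S.rot Nz.a3 cz2 Nz.bd.symm Nw.a1 cwb Ny.a1 cyb
  obtain ⟨w2yb, w2zb⟩ := H.close S.rot.rot Nw.a3 cw2 Nw.bd.symm Ny.a1 cyb Nz.a1 czb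
  have y_z := S.N.ab
  have y_w := S.N.ad
  have z_w := S.N.bd
  have hxy := S.N.a1
  have hxz := S.N.a2
  have hxw := S.N.a3
  -- the six `false` vertices are distinct
  have yz : ¬ G.Adj y z := fun h => hT x y z hxy h hxz
  have yw : ¬ G.Adj y w := fun h => hT x y w hxy h hxw
  have zw : ¬ G.Adj z w := fun h => hT x z w hxz h hxw
  have yb_z : yb ≠ z := by rintro rfl; exact yz Ny.a1
  have yb_w : yb ≠ w := by rintro rfl; exact yw Ny.a1
  have zb_y : zb ≠ y := by rintro rfl; exact yz Nz.a1.symm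
  have zb_w : zb ≠ w := by rintro rfl; exact zw Nz.a1
  have wb_y : wb ≠ y := by rintro rfl; exact yw Nw.a1.symm
  have wb_z : wb ≠ z := by rintro rfl; exact zw Nw.a1.symm
  have yb_zb : yb ≠ zb := by
    rintro rfl
    exact y_z (uniq_same (P.le1 yb) Ny.a1.symm Nz.a1.symm (by rw [cy, cyb]) (by rw [cz, cyb]))
  have yb_wb : yb ≠ wb := by
    rintro rfl
    exact y_w (uniq_same (P.le1 yb) Ny.a1.symm Nw.a1.symm (by rw [cy, cyb]) (by rw [cw, cyb]))
  have zb_wb : zb ≠ wb := by
    rintro rfl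
    exact z_w (uniq_same (P.le1 zb) Nz.a1.symm Nw.a1.symm (by rw [cz, czb]) (by rw [cw, czb]))
  -- the four `true` vertices are distinct
  have x_y2 := Ny.bd
  have x_z2 := Nz.bd
  have x_w2 := Nw.bd
  have cn : ∀ a b v, a ≠ b → G.Adj x a → G.Adj x b → x ≠ v → G.Adj a v → G.Adj b v → False := by
    intro a b v hab ha hb hv h1 h2
    exact H.hQ x a v b hv hab ha h1 h2.symm hb.symm
  have y2_z2 : y2 ≠ z2 := by rintro rfl; exact cn y z y2 y_z hxy hxz x_y2 Ny.a3 Nz.a3
  have y2_w2 : y2 ≠ w2 := by rintro rfl; exact cn y w y2 y_w hxy hxw x_y2 Ny.a3 Nw.a3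
  have z2_w2 : z2 ≠ w2 := by rintro rfl; exact cn z w z2 z_w hxz hxw x_z2 Nz.a3 Nw.a3
  -- neighbourhoods
  have Nyb : Nb G yb y z2 w2 := Nb.of_three hG Ny.a1.symm z2yb.symm w2yb.symm
    (ne_col cz2 cy).symm (ne_col cw2 cy).symm z2_w2
  have Nzb : Nb G zb z y2 w2 := Nb.of_three hG Nz.a1.symm y2zb.symm w2zb.symm
    (ne_col cy2 cz).symm (ne_col cw2 cz).symm y2_w2
  have Nwb : Nb G wb w y2 z2 := Nb.of_three hG Nw.a1.symm y2wb.symm z2wb.symm
    (ne_col cy2 cw).symm (ne_col cz2 cw).symm y2_z2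
  have Ny2 : Nb G y2 y zb wb := Nb.of_three hG Ny.a3.symm y2zb y2wb zb_y.symm wb_y.symm zb_wb
  have Nz2 : Nb G z2 z yb wb := Nb.of_three hG Nz.a3.symm z2yb z2wb yb_z.symm wb_z.symm yb_wb
  have Nw2 : Nb G w2 w yb zb := Nb.of_three hG Nw.a3.symm w2yb w2zb yb_w.symm zb_w.symm yb_zb
  have Nx := S.N
  -- colour-based distinctness
  have a1 := ne_col cx cy
  have a2 := ne_col cx cyb
  have a3 := ne_col cx cz
  have a4 := ne_col cx cw
  have a5 := ne_col cx cwb
  have a6 := ne_col cx czb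
  have b1 := ne_col cz2 cy
  have b2 := ne_col cz2 cyb
  have b3 := ne_col cz2 cz
  have b4 := ne_col cz2 cw
  have b5 := ne_col cz2 cwb
  have b6 := ne_col cz2 czb
  have d1 := ne_col cy2 cy
  have d2 := ne_col cy2 cyb
  have d3 := ne_col cy2 cz
  have d4 := ne_col cy2 cw
  have d5 := ne_col cy2 cwb
  have d6 := ne_col cy2 czb
  have e1 := ne_col cw2 cy
  have e2 := ne_col cw2 cyb
  have e3 := ne_col cw2 cz
  have e4 := ne_col cw2 cw
  have e5 := ne_col cw2 cwb
  have e6 := ne_col cw2 czb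
  have y_yb := Ny.a1.ne
  have z_zb := Nz.a1.ne
  have w_wb := Nw.a1.ne
  set PP : Finset V := {yb, y, x, z, wb} with hPP
  refine ⟨{yb, y, x, z, w, w2, zb, y2} ∪ {wb, z2}, fun v => decide (v ∈ PP), by simp, ?_, ?_⟩
  · intro u hu v hv
    simp only [Finset.mem_union, Finset.mem_insert, Finset.mem_singleton] at hu ⊢
    rcases hu with (rfl | rfl | rfl | rfl | rfl | rfl | rfl | rfl) | (rfl | rfl)
    · rcases Nyb.all v hv with e | e | e <;> simp [e]
    · rcases Ny.all v hv with e | e | e <;> simp [e]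
    · rcases Nx.all v hv with e | e | e <;> simp [e]
    · rcases Nz.all v hv with e | e | e <;> simp [e]
    · rcases Nw.all v hv with e | e | e <;> simp [e]
    · rcases Nw2.all v hv with e | e | e <;> simp [e]
    · rcases Nzb.all v hv with e | e | e <;> simp [e]
    · rcases Ny2.all v hv with e | e | e <;> simp [e]
    · rcases Nwb.all v hv with e | e | e <;> simp [e]
    · rcases Nz2.all v hv with e | e | e <;> simp [e]
  · intro c' hc'
    have hP : ∀ v ∈ PP, c' v = true := by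
      intro v hv
      have hv' := hv
      simp only [hPP, Finset.mem_insert, Finset.mem_singleton] at hv'
      rw [hc' v (by simp only [Finset.mem_union, Finset.mem_insert, Finset.mem_singleton]; tauto)]
      simpa using hv
    have hQ : ∀ v, (v = w ∨ v = w2 ∨ v = zb ∨ v = y2 ∨ v = z2) → c' v = false := by
      intro v hv
      rw [hc' v (by simp only [Finset.mem_union, Finset.mem_insert, Finset.mem_singleton]; tauto)]
      simp only [hPP, decide_eq_false_iff_not, Finset.mem_insert, Finset.mem_singleton]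
      rcases hv with rfl | rfl | rfl | rfl | rfl
      · simp [yb_w.symm, y_w.symm, a4.symm, z_w.symm, w_wb]
      · simp [e2, e1, x_w2.symm, e3, e5]
      · simp [yb_zb.symm, zb_y, a6.symm, z_zb.symm, zb_wb]
      · simp [d2, d1, x_y2.symm, d3, d5]
      · simp [b2, b1, x_z2.symm, b3, b5]
    have px : c' x = true := hP x (by simp [hPP])
    have py : c' y = true := hP y (by simp [hPP])
    have pyb : c' yb = true := hP yb (by simp [hPP])
    have pz : c' z = true := hP z (by simp [hPP])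
    have pwb : c' wb = true := hP wb (by simp [hPP])
    have qw : c' w = false := hQ w (by simp)
    have qw2 : c' w2 = false := hQ w2 (by simp)
    have qy2 : c' y2 = false := hQ y2 (by simp)
    have qzb : c' zb = false := hQ zb (by simp)
    have qz2 : c' z2 = false := hQ z2 (by simp)
    have B1 := Bal_P4 (G := G) (c := c') (a := yb) (b := y) (d := x) (e := z)
      (a' := w) (b' := w2) (d' := zb) (e' := y2)
      ⟨Ny.a1.symm, hxy.symm, hxz, a2.symm, yb_z, y_z, pyb, py, px, pz,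
        by rw [Nyb.md_eq, pyb, py, qz2, qw2]; simp, by rw [Ny.md_eq, py, pyb, px, qy2]; simp,
        by rw [Nx.md_eq, px, py, pz, qw]; simp, by rw [Nz.md_eq, pz, qzb, px, qz2]; simp⟩
      ⟨Nw.a3, w2zb, y2zb.symm, zb_w.symm, d4.symm, y2_w2.symm, qw, qw2, qzb, qy2,
        by rw [Nw.md_eq, qw, pwb, px, qw2]; simp, by rw [Nw2.md_eq, qw2, qw, pyb, qzb]; simp,
        by rw [Nzb.md_eq, qzb, pz, qy2, qw2]; simp, by rw [Ny2.md_eq, qy2, py, qzb, pwb]; simp⟩
    have B2 := Bal_K1 (G := G) (c := c') (u := wb) (w := z2) pwb qz2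
      (by rw [Nwb.md_eq, pwb, qw, qy2, qz2]; simp) (by rw [Nz2.md_eq, qz2, pz, pyb, pwb]; simp)
    refine Bal_union B1 B2 ?_
    rw [Finset.disjoint_left]
    intro v hv1 hv2
    simp only [Finset.mem_insert, Finset.mem_singleton] at hv1 hv2
    rcases hv2 with rfl | rfl
    · rcases hv1 with h | h | h | h | h | h | h | h
      · exact yb_wb h.symm
      · exact wb_y h
      · exact a5 h.symm
      · exact wb_z h
      · exact w_wb h.symm
      · exact e5 h.symm
      · exact zb_wb h.symm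
      · exact d5 h.symm
    · rcases hv1 with h | h | h | h | h | h | h | h
      · exact b2 h
      · exact b1 h
      · exact x_z2 h.symm
      · exact b3 h
      · exact b4 h
      · exact z2_w2 h
      · exact b6 h
      · exact y2_z2 h.symm

lemma glue {K : Finset V} (hK : ∀ u ∈ K, ∀ v, G.Adj u v → v ∈ K) {c0 : V → Bool}
    (h0 : ∀ c' : V → Bool, (∀ u ∈ K, c' u = c0 u) → Bal G c' K)
    {c1 : {v // v ∉ K} → Bool} [Fintype {v // v ∉ K}]
    (h1 : Bal (G.induce {v | v ∉ K}) c1 Finset.univ) : ∃ c : V → Bool, Bal G c Finset.univ := by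
  classical
  obtain ⟨_, hb, f, hf⟩ := h1
  set c : V → Bool := fun v => if h : v ∉ K then c1 ⟨v, h⟩ else c0 v with hc
  have cin : ∀ (v : V) (h : v ∉ K), c v = c1 ⟨v, h⟩ := by
    intro v h; simp only [hc]; rw [dif_pos h]
  refine ⟨c, ?_⟩
  have B0 : Bal G c K := h0 c (by
    intro u hu; simp only [hc]; rw [dif_neg (by simpa using hu)])
  have B1 : Bal G c Kᶜ := by
    refine ⟨?_, ?_, fun v => if h : v ∉ K then (f ⟨v, h⟩).1 else v, ?_⟩
    · intro u hu v ha _
      rw [Finset.mem_compl] at hu ⊢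
      intro hv
      exact hu (hK v hv u ha.symm)
    · intro u hu
      rw [Finset.mem_compl] at hu
      obtain ⟨k, P, b1, b2, _, ⟨i0, b4⟩, b6, b5⟩ := hb ⟨u, hu⟩ (Finset.mem_univ _)
      refine ⟨k, fun i => (P i).1, b1, fun i j h => b2 (Subtype.ext h), ?_, ⟨i0, congrArg Subtype.val b4⟩,
        fun i => by rw [cin _ (P i).2, cin _ hu, Subtype.coe_eta, b6], ?_⟩
      · intro i
        rw [Finset.mem_compl]
        exact (P i).2
      · intro i v hv hc2
        have hvK : v ∉ K := fun h => (P i).2 (hK v h _ hv.symm)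
        obtain ⟨j, hj, hj2⟩ := b5 i ⟨v, hvK⟩ hv (by
          rw [cin _ hvK, cin _ (P i).2, Subtype.coe_eta] at hc2
          exact hc2)
        exact ⟨j, congrArg Subtype.val hj, hj2⟩
    · intro u hu
      rw [Finset.mem_compl] at hu
      obtain ⟨g1, g2, g3, g4⟩ := hf ⟨u, hu⟩ (Finset.mem_univ _)
      have hfu : (f ⟨u, hu⟩).1 ∉ K := (f ⟨u, hu⟩).2
      refine ⟨?_, ?_, ?_, ?_⟩
      · simp only [dif_pos hu, Finset.mem_compl]; exact hfu
      · simp only [dif_pos hu]
        rw [dif_pos hfu, Subtype.coe_eta, g2]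
      · simp only [dif_pos hu]
        rw [cin _ hfu, cin _ hu, Subtype.coe_eta, g3]
      · intro v hv hcv
        rw [Finset.mem_compl] at hv
        simp only [dif_pos hu, dif_pos hv]
        have := g4 ⟨v, hv⟩ (Finset.mem_univ _) (by rw [← cin, ← cin]; exact hcv)
        simpa using this
  have := Bal_union B0 B1 disjoint_compl_right
  rwa [Finset.union_compl] at this

lemma reg_induce (hG : G.IsRegularOfDegree 3) {K : Finset V}
    (hK : ∀ u ∈ K, ∀ v, G.Adj u v → v ∈ K)
    [Fintype {v // v ∉ K}] [DecidableRel (G.induce {v | v ∉ K}).Adj] :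
    (G.induce {v | v ∉ K}).IsRegularOfDegree 3 := by
  classical
  intro v
  have h := hG v.1
  rw [← SimpleGraph.card_neighborFinset_eq_degree] at h ⊢
  rw [← h]
  apply Finset.card_bij (fun u _ => u.1)
  · intro u hu
    rw [SimpleGraph.mem_neighborFinset] at hu ⊢
    exact hu
  · intro a _ b _ e
    exact Subtype.ext e
  · intro u hu
    rw [SimpleGraph.mem_neighborFinset] at hu
    have hu2 : u ∉ K := fun h => v.2 (hK u h v.1 hu.symm)
    refine ⟨⟨u, hu2⟩, ?_, rfl⟩
    rw [SimpleGraph.mem_neighborFinset]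
    exact hu

theorem main : ∀ (n : ℕ) (V : Type) [Fintype V] [DecidableEq V] (G : SimpleGraph V)
    [DecidableRel G.Adj], Fintype.card V = n → G.IsRegularOfDegree 3 → NoTri G → NoQuad G →
    ∃ c : V → Bool, Bal G c Finset.univ := by
  intro n
  induction n using Nat.strong_induction_on with
  | _ n ih =>
    intro V _ _ G _ hn hG hT hQ
    classical
    by_contra hno
    push Not at hno
    obtain ⟨c, P⟩ := exists_PS hG hno
    have h2 := P.two_le
    by_cases h4 : 4 ≤ imb c
    · obtain ⟨c', hc'⟩ := P.pack hT hQ (P.noS_of_four hT h4)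
      exact hno c' hc'
    have he := imb_even hG c
    have htwo : imb c = 2 := by omega
    have H : Hy G c := ⟨P, htwo, hT, hQ, hno⟩
    by_cases hA : NoS G c
    · obtain ⟨c', hc'⟩ := P.pack hT hQ hA
      exact hno c' hc'
    unfold NoS at hA
    push Not at hA
    obtain ⟨x, y, z, w, cx, mx, N, ty, mz, mw⟩ := hA
    obtain ⟨K, c0, hxK, hK, h0⟩ := H.piece (H.claim2 cx mx N ty mz mw.1)
    have hcard : Fintype.card {v // v ∉ K} < n := by
      rw [← hn]
      exact Fintype.card_subtype_lt (x := x) (by simpa using hxK)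
    obtain ⟨c1, h1⟩ := ih _ hcard {v // v ∉ K} (G.induce {v | v ∉ K}) rfl (reg_induce hG hK)
      (fun a b d h1 h2 h3 => hT a.1 b.1 d.1 h1 h2 h3)
      (fun a b d e h1 h2 h3 h4 h5 h6 => hQ a.1 b.1 d.1 e.1 (fun h => h1 (Subtype.ext h))
        (fun h => h2 (Subtype.ext h)) h3 h4 h5 h6)
    obtain ⟨c', hc'⟩ := glue hK h0 h1
    exact hno c' hc'

end Pool.Agent.Helper6_lin
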