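import Pool.Agent.Helper6_lin.Pieces

/-!
The packing argument.
-/

set_option linter.unusedSectionVars false
set_option linter.unusedTactic false
set_option linter.unnecessarySeqFocus false

namespace Pool.Agent.Helper6_lin

open Finset

variable {V : Type} [Fintype V] [DecidableEq V] {G : SimpleGraph V} [DecidableRel G.Adj]

/-- the footprint of a `true` vertex `x` -/
def FF (G : SimpleGraph V) [DecidableRel G.Adj] (c : V → Bool) (x u : V) : Prop :=
  u = x ∨ G.Adj x u ∨ (∃ v, G.Adj x v ∧ G.Adj v u ∧ c u = c v) ∨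
    (∃ y, G.Adj x y ∧ T0 G c y ∧ G.Adj y u)

open scoped Classical in
/-- `true` vertices of same-colour degree zero with a `T0` neighbour -/
noncomputable def AA (G : SimpleGraph V) [DecidableRel G.Adj] (c : V → Bool) : Finset V :=
  Finset.univ.filter (fun x => c x = true ∧ md G c x = 0 ∧ ∃ y, G.Adj x y ∧ T0 G c y)

open scoped Classical in
noncomputable def TT (G : SimpleGraph V) [DecidableRel G.Adj] (c : V → Bool) : Finset V :=
  Finset.univ.filter (fun y => T0 G c y)

lemma mem_AA {c : V → Bool} {x : V} : x ∈ AA G c ↔ c x = true ∧ md G c x = 0 ∧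
    ∃ y, G.Adj x y ∧ T0 G c y := by
  unfold AA; simp

lemma mem_TT {c : V → Bool} {x : V} : x ∈ TT G c ↔ T0 G c x := by
  unfold TT; simp

/-- no `true` vertex has three `false` neighbours of same-colour degree one, one of them `T0` -/
def NoS (G : SimpleGraph V) [DecidableRel G.Adj] (c : V → Bool) : Prop :=
  ∀ x y z w, c x = true → md G c x = 0 → Nb G x y z w → T0 G c y → md G c z = 1 →
    md G c w = 1 → False

/-- all neighbours of a `true` vertex of same-colour degree zero are `false` -/
lemma nb_false {c : V → Bool} {x v : V} (cx : c x = true) (mx : md G c x = 0) (h : G.Adj x v) :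
    c v = false := by
  have := md_zero mx v h
  rw [cx] at this
  cases hv : c v
  · rfl
  · exact absurd hv (fun h => this h)

lemma nb_true {c : V → Bool} {x v : V} (cx : c x = false) (mx : md G c x = 0) (h : G.Adj x v) :
    c v = true := by
  have := md_zero mx v h
  rw [cx] at this
  cases hv : c v
  · exact absurd hv (fun h => this h)
  · rfl

lemma PS.card_TT {c : V → Bool} (P : PS G c) (hT : NoTri G) : 3 * imb c ≤ ((TT G c).card : ℤ) := by
  classical
  have hc := cross_count P.reg c
  set W1 := Finset.univ.filter (fun v => c v = false ∧ md G c v = 1) with hW1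
  set B1 := Finset.univ.filter (fun v => c v = true ∧ md G c v = 1) with hB1
  have h1 : ∑ v, (if c v = true then -(md G c v : ℤ) else (md G c v : ℤ)) =
      (W1.card : ℤ) - B1.card := by
    have : ∀ v, (if c v = true then -(md G c v : ℤ) else (md G c v : ℤ)) =
        (if c v = false ∧ md G c v = 1 then (1:ℤ) else 0) - (if c v = true ∧ md G c v = 1 then (1:ℤ) else 0) := by
      intro v
      have hm := P.le1 v
      have : md G c v = 0 ∨ md G c v = 1 := by omega
      rcases this with h | h <;> cases hcv : c v <;> simp [h]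
    rw [Finset.sum_congr rfl (fun v _ => this v), Finset.sum_sub_distrib, hW1, hB1,
      Finset.card_filter, Finset.card_filter]
    push_cast
    rfl
  have h2 : (W1.filter (fun y => ¬ T0 G c y)).card ≤ B1.card := by
    have hex : ∀ y ∈ W1.filter (fun y => ¬ T0 G c y), ∃ p, G.Adj y p ∧ c p = true ∧ md G c p = 1 := by
      intro y hy
      simp only [hW1, Finset.mem_filter, Finset.mem_univ, true_and] at hy
      obtain ⟨⟨cy, my⟩, hn⟩ := hy
      unfold T0 at hn
      push Not at hn
      obtain ⟨p, h1, h2, h3⟩ := hn cy my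
      exact ⟨p, h1, h2, by have := P.le1 p; omega⟩
    choose! f hf using hex
    apply Finset.card_le_card_of_injOn f
    · intro y hy
      obtain ⟨_, h2, h3⟩ := hf y hy
      simp [hB1, h2, h3]
    · intro y hy w hw he
      by_contra hne
      have hy' := hf y hy
      have hw' := hf w hw
      rw [Finset.mem_coe] at hy hw
      simp only [hW1, Finset.mem_filter, Finset.mem_univ, true_and] at hy hw
      rw [← he] at hw'
      exact P.R1 hy'.2.1 hy'.2.2 hy.1.1 hy.1.2 hw.1.1 hw.1.2 hy'.1.symm hw'.1.symm hne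
        (fun h => hT y w (f y) h hw'.1 hy'.1)
  have h3 : (W1.filter (fun y => T0 G c y)).card + (W1.filter (fun y => ¬ T0 G c y)).card = W1.card :=
    Finset.card_filter_add_card_filter_not _
  have h4 : (W1.filter (fun y => T0 G c y)).card ≤ (TT G c).card := by
    apply Finset.card_le_card
    intro y hy
    rw [Finset.mem_filter] at hy
    exact mem_TT.mpr hy.2
  omega

lemma PS.uniqT0 {c : V → Bool} (P : PS G c) (hT : NoTri G) (hQ : NoQuad G) (hA : NoS G c)
    {x y z : V} (cx : c x = true) (mx : md G c x = 0) (hy : T0 G c y) (hz : T0 G c z)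
    (hxy : G.Adj x y) (hxz : G.Adj x z) : y = z := by
  by_contra hne
  obtain ⟨a, b, hN, _⟩ := split0' P.reg mx hxy
  rcases hN.all z hxz with h | h | h
  · exact hne h.symm
  · subst h
    have := P.le1 b
    rcases Nat.lt_or_ge (md G c b) 1 with h | h
    · exact P.rule00 hT hQ cx mx hy hz hne hN (by omega)
    · exact hA x y z b cx mx hN hy hz.2.1 (by omega)
  · subst h
    have := P.le1 a
    rcases Nat.lt_or_ge (md G c a) 1 with h | h
    · exact P.rule00 hT hQ cx mx hy hz hne hN.swp (by omega)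
    · exact hA x y z a cx mx hN.swp hy hz.2.1 (by omega)

/-- the `true` neighbours -/
def NT (G : SimpleGraph V) [DecidableRel G.Adj] (c : V → Bool) (v : V) : Finset V :=
  (G.neighborFinset v).filter (fun u => c u = true)

lemma mem_NT {c : V → Bool} {v u : V} : u ∈ NT G c v ↔ G.Adj v u ∧ c u = true := by
  unfold NT; simp

lemma card_NT (hG : G.IsRegularOfDegree 3) {c : V → Bool} {v : V} (cv : c v = false)
    (mv : md G c v = 1) : (NT G c v).card = 2 := by
  have := md_add hG c v
  have h2 : NT G c v = (G.neighborFinset v).filter (fun u => ¬ c u = c v) := by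
    unfold NT
    apply Finset.filter_congr
    intro u _
    rw [cv]; simp
  rw [h2]; omega

lemma PS.card_AA {c : V → Bool} (P : PS G c) (hT : NoTri G) (hQ : NoQuad G) (hA : NoS G c) :
    6 * imb c ≤ ((AA G c).card : ℤ) := by
  classical
  have h1 : (TT G c).card * 2 ≤ (AA G c).card * 1 := by
    apply Finset.card_mul_le_card_mul (fun y x => G.Adj y x)
    · intro y hy
      rw [mem_TT] at hy
      rw [← card_NT P.reg hy.1 hy.2.1]
      apply Finset.card_le_card
      intro x hx
      rw [mem_NT] at hx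
      rw [Finset.mem_bipartiteAbove]
      exact ⟨mem_AA.mpr ⟨hx.2, hy.2.2 x hx.1 hx.2, y, hx.1.symm, hy⟩, hx.1⟩
    · intro x hx
      rw [mem_AA] at hx
      rw [Finset.card_le_one]
      intro a ha b hb
      rw [Finset.mem_bipartiteBelow, mem_TT] at ha hb
      exact P.uniqT0 hT hQ hA hx.1 hx.2.1 ha.1 hb.1 ha.2.symm hb.2.symm
  have h2 := P.card_TT hT
  omega

/-- footprint members that are `false` -/
lemma FF_false {c : V → Bool} {x u : V} (cx : c x = true) (mx : md G c x = 0) (h : FF G c x u)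
    (cu : c u = false) : ∃ v, G.Adj x v ∧ (u = v ∨ (G.Adj v u ∧ c u = c v)) := by
  rcases h with h | h | ⟨v, h1, h2, h3⟩ | ⟨y, h1, h2, h3⟩
  · rw [h, cx] at cu; exact absurd cu (by simp)
  · exact ⟨u, h, Or.inl rfl⟩
  · exact ⟨v, h1, Or.inr ⟨h2, h3⟩⟩
  · exact ⟨y, h1, Or.inr ⟨h3, by rw [cu, h2.1]⟩⟩

/-- footprint members that are `true` -/
lemma FF_true {c : V → Bool} {x u : V} (hx : x ∈ AA G c) (h : FF G c x u)
    (cu : c u = true) : ∃ y, T0 G c y ∧ G.Adj x y ∧ G.Adj y u := by
  obtain ⟨cx, mx, y0, hy0, ty0⟩ := mem_AA.mp hx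
  rcases h with h | h | ⟨v, h1, h2, h3⟩ | ⟨y, h1, h2, h3⟩
  · subst h; exact ⟨y0, ty0, hy0, hy0.symm⟩
  · have := nb_false cx mx h; rw [cu] at this; exact absurd this (by simp)
  · have := nb_false cx mx h1; rw [← h3, cu] at this; exact absurd this (by simp)
  · exact ⟨y, h2, h1, h3⟩

open scoped Classical in
noncomputable def Cov (G : SimpleGraph V) [DecidableRel G.Adj] (c : V → Bool) (x : V) : Finset V :=
  (AA G c).filter (fun a => ∃ v, G.Adj x v ∧ (G.Adj v a ∨ ∃ w, G.Adj v w ∧ c w = c v ∧ G.Adj w a))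

lemma mem_Cov {c : V → Bool} {x a : V} : a ∈ Cov G c x ↔ a ∈ AA G c ∧
    ∃ v, G.Adj x v ∧ (G.Adj v a ∨ ∃ w, G.Adj v w ∧ c w = c v ∧ G.Adj w a) := by
  unfold Cov; simp

/-- conflicting footprints are covered -/
lemma PS.con_Cov {c : V → Bool} (P : PS G c) (hT : NoTri G) (hQ : NoQuad G) (hA : NoS G c)
    {x a u : V} (hx : x ∈ AA G c) (ha : a ∈ AA G c) (h1 : FF G c x u) (h2 : FF G c a u) :
    a ∈ Cov G c x := by
  obtain ⟨cx, mx, _⟩ := mem_AA.mp hx
  obtain ⟨ca, ma, _⟩ := mem_AA.mp ha
  rw [mem_Cov]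
  refine ⟨ha, ?_⟩
  cases cu : c u
  · obtain ⟨v, hv, hv'⟩ := FF_false cx mx h1 cu
    obtain ⟨w, hw, hw'⟩ := FF_false ca ma h2 cu
    have cv : c v = false := nb_false cx mx hv
    have cw : c w = false := nb_false ca ma hw
    refine ⟨v, hv, ?_⟩
    rcases hv' with rfl | ⟨hvu, _⟩
    · rcases hw' with rfl | ⟨hwu, _⟩
      · exact Or.inl hw.symm
      · exact Or.inr ⟨w, hwu.symm, by rw [cw, cv], hw.symm⟩
    · rcases hw' with rfl | ⟨hwu, _⟩
      · exact Or.inr ⟨u, hvu, by rw [cw, cv], hw.symm⟩
      · left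
        have : v = w := uniq_same (P.le1 u) hvu.symm hwu.symm (by rw [cv, cu]) (by rw [cw, cu])
        rw [this]; exact hw.symm
  · obtain ⟨y, ty, hy, hyu⟩ := FF_true hx h1 cu
    obtain ⟨z, tz, hz, hzu⟩ := FF_true ha h2 cu
    have mu : md G c u = 0 := ty.2.2 u hyu cu
    have : y = z := P.uniqT0 hT hQ hA cu mu ty tz hyu.symm hzu.symm
    subst this
    exact ⟨y, hy, Or.inl hz.symm⟩

/-- data at a `true` vertex whose neighbours are one `T0` vertex and two of degree zero -/
structure D0 (G : SimpleGraph V) [DecidableRel G.Adj] (c : V → Bool) (x y yb y' s t : V) : Prop where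
  Nx : Nb G x y s t
  Ny : Nb G y yb x y'
  cx : c x = true
  mx : md G c x = 0
  ty : T0 G c y
  cyb : c yb = false
  cy' : c y' = true
  cs : c s = false
  ct : c t = false
  ms : md G c s = 0
  mt : md G c t = 0

/-- data at a `true` vertex whose neighbours are one `T0` vertex, one vertex `z` with exactly one
`true` neighbour `p` of same-colour degree one, and one of degree zero -/
structure D1 (G : SimpleGraph V) [DecidableRel G.Adj] (c : V → Bool)
    (x y yb y' z zb p pb t : V) : Prop where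
  Nx : Nb G x y z t
  Ny : Nb G y yb x y'
  Nz : Nb G z zb x p
  cx : c x = true
  mx : md G c x = 0
  ty : T0 G c y
  cyb : c yb = false
  cy' : c y' = true
  cz : c z = false
  mz : md G c z = 1
  czb : c zb = false
  cp : c p = true
  mp : md G c p = 1
  ap : G.Adj p pb
  cpb : c pb = true
  ct : c t = false
  mt : md G c t = 0

lemma PS.data {c : V → Bool} (P : PS G c) (hT : NoTri G) (hQ : NoQuad G) (hA : NoS G c)
    {x : V} (hx : x ∈ AA G c) :
    (∃ y yb y' s t, D0 G c x y yb y' s t) ∨
    (∃ y yb y' z zb p pb t, D1 G c x y yb y' z zb p pb t) := by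
  obtain ⟨cx, mx, y, hy, ty⟩ := mem_AA.mp hx
  obtain ⟨s, t, Nx, _, cs, ct⟩ := split0' P.reg mx hy
  rw [cx] at cs ct
  obtain ⟨yb, y', Ny, cyb, cy'⟩ := split1' P.reg ty.2.1 hy.symm (by rw [cx, ty.1]; simp)
  rw [ty.1] at cyb cy'
  have key : ∀ z t, Nb G x y z t → c z = false → c t = false → md G c z = 1 → md G c t = 0 →
      ∃ y yb y' z zb p pb t, D1 G c x y yb y' z zb p pb t := by
    intro z t Nx cz ct mz mt
    have hnz : ¬ T0 G c z := fun h => Nx.ab (P.uniqT0 hT hQ hA cx mx ty h Nx.a1 Nx.a2)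
    unfold T0 at hnz
    push Not at hnz
    obtain ⟨p, h1, h2, h3⟩ := hnz cz mz
    have mp : md G c p = 1 := by have := P.le1 p; omega
    obtain ⟨zb, b, Nz, czb, cb⟩ := split1' P.reg mz Nx.a2.symm (by rw [cx, cz]; simp)
    obtain ⟨pb, apb, cpb, _⟩ := md_one mp
    have hb : b = p := by
      rcases Nz.all p h1 with h | h | h
      · rw [h, czb, cz] at h2; exact absurd h2 (by simp)
      · rw [h, mx] at mp; exact absurd mp (by simp)
      · exact h.symm
    subst hb
    exact ⟨y, yb, y', z, zb, b, pb, t, ⟨Nx, Ny, Nz, cx, mx, ty, cyb, cy', cz, mz, by rw [czb, cz],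
      h2, mp, apb, by rw [cpb, h2], ct, mt⟩⟩
  have m1 := P.le1 s
  have m2 := P.le1 t
  rcases Nat.lt_or_ge (md G c s) 1 with h | h
  · rcases Nat.lt_or_ge (md G c t) 1 with h' | h'
    · left
      exact ⟨y, yb, y', s, t, ⟨Nx, Ny, cx, mx, ty, cyb, cy', cs, ct, by omega, by omega⟩⟩
    · right
      exact key t s Nx.swp ct cs (by omega) (by omega)
  · rcases Nat.lt_or_ge (md G c t) 1 with h' | h'
    · right
      exact key s t Nx cs ct (by omega) (by omega)
    · exact absurd (hA x y s t cx mx Nx ty (by omega) (by omega)) (fun h => h)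

lemma card_erase_nb (hG : G.IsRegularOfDegree 3) {v x : V} (h : G.Adj v x) :
    ((G.neighborFinset v).erase x).card = 2 := by
  rw [Finset.card_erase_of_mem (by simpa using h)]
  have : (G.neighborFinset v).card = 3 := hG v
  omega

lemma D0.card_Cov {c : V → Bool} (P : PS G c) {x y yb y' s t : V} (D : D0 G c x y yb y' s t) :
    (Cov G c x).card ≤ 8 := by
  have hsub : Cov G c x ⊆ ({x, y'} ∪ NT G c yb) ∪
      ((G.neighborFinset s).erase x ∪ (G.neighborFinset t).erase x) := by
    intro a ha
    obtain ⟨haA, v, hv, h⟩ := mem_Cov.mp ha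
    obtain ⟨ca, ma, _⟩ := mem_AA.mp haA
    simp only [Finset.mem_union, Finset.mem_insert, Finset.mem_singleton, mem_NT,
      Finset.mem_erase, SimpleGraph.mem_neighborFinset]
    by_cases hax : a = x
    · left; left; left; exact hax
    rcases D.Nx.all v hv with rfl | rfl | rfl
    · rcases h with h | ⟨w, h1, h2, h3⟩
      · rcases D.Ny.all a h with h | h | h
        · rw [h, D.cyb] at ca; exact absurd ca (by simp)
        · exact absurd h hax
        · left; left; right; exact h
      · have hw : w = yb := uniq_same (P.le1 v) h1 D.Ny.a1 h2 (by rw [D.cyb, D.ty.1])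
        subst hw
        left; right; exact ⟨h3, ca⟩
    · rcases h with h | ⟨w, h1, h2, h3⟩
      · right; left; exact ⟨hax, h⟩
      · exact absurd (md_zero D.ms w h1 h2) (fun h => h)
    · rcases h with h | ⟨w, h1, h2, h3⟩
      · right; right; exact ⟨hax, h⟩
      · exact absurd (md_zero D.mt w h1 h2) (fun h => h)
  have h1 := Finset.card_le_card hsub
  have h2 := Finset.card_union_le ({x, y'} ∪ NT G c yb) ((G.neighborFinset s).erase x ∪ (G.neighborFinset t).erase x)
  have h3 := Finset.card_union_le ({x, y'} : Finset V) (NT G c yb)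
  have h4 := Finset.card_union_le ((G.neighborFinset s).erase x) ((G.neighborFinset t).erase x)
  have h5 : ({x, y'} : Finset V).card ≤ 2 := Finset.card_le_two
  have myb : md G c yb = 1 := by
    have h1 := P.le1 yb
    have h2 := one_le_md (c := c) D.Ny.a1.symm (by rw [D.ty.1, D.cyb])
    omega
  have h6 := card_NT P.reg D.cyb myb
  have h7 := card_erase_nb P.reg D.Nx.a2.symm
  have h8 := card_erase_nb P.reg D.Nx.a3.symm
  omega

/-- `true` neighbours of `v` lying in `AA` -/
noncomputable def NA (G : SimpleGraph V) [DecidableRel G.Adj] (c : V → Bool) (v : V) : Finset V :=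
  NT G c v ∩ AA G c

lemma card_NA_le {c : V → Bool} (P : PS G c) {v : V} (cv : c v = false) (mv : md G c v = 1) :
    (NA G c v).card ≤ 2 := by
  rw [← card_NT P.reg cv mv]
  exact Finset.card_le_card Finset.inter_subset_left

lemma card_NA_lt {c : V → Bool} (P : PS G c) {v : V} (cv : c v = false) (mv : md G c v = 1)
    (h : ¬ T0 G c v) : (NA G c v).card ≤ 1 := by
  unfold T0 at h
  push Not at h
  obtain ⟨p, h1, h2, h3⟩ := h cv mv
  have : (NA G c v).card < (NT G c v).card := by
    apply Finset.card_lt_card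
    constructor
    · exact Finset.inter_subset_left
    · intro hs
      have := hs (mem_NT.mpr ⟨h1, h2⟩)
      rw [NA, Finset.mem_inter, mem_AA] at this
      exact h3 this.2.2.1
  rw [card_NT P.reg cv mv] at this
  omega

lemma D1.yb1 {c : V → Bool} (P : PS G c) {x y yb y' z zb p pb t : V}
    (D : D1 G c x y yb y' z zb p pb t) : md G c yb = 1 := by
  have h1 := P.le1 yb
  have h2 := one_le_md (c := c) D.Ny.a1.symm (by rw [D.ty.1, D.cyb])
  omega

lemma D1.zb1 {c : V → Bool} (P : PS G c) {x y yb y' z zb p pb t : V}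
    (D : D1 G c x y yb y' z zb p pb t) : md G c zb = 1 := by
  have h1 := P.le1 zb
  have h2 := one_le_md (c := c) D.Nz.a1.symm (by rw [D.cz, D.czb])
  omega

lemma D1.pb1 {c : V → Bool} (P : PS G c) {x y yb y' z zb p pb t : V}
    (D : D1 G c x y yb y' z zb p pb t) : md G c pb = 1 := by
  have h1 := P.le1 pb
  have h2 := one_le_md (c := c) D.ap.symm (by rw [D.cp, D.cpb])
  omega

lemma D1.card_Cov {c : V → Bool} (P : PS G c) {x y yb y' z zb p pb t : V}
    (D : D1 G c x y yb y' z zb p pb t) :
    (Cov G c x).card ≤ 6 + (NA G c yb).card := by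
  have hsub : Cov G c x ⊆ ({x, y'} ∪ NA G c yb) ∪
      (NA G c zb ∪ (G.neighborFinset t).erase x) := by
    intro a ha
    obtain ⟨haA, v, hv, h⟩ := mem_Cov.mp ha
    obtain ⟨ca, ma, _⟩ := mem_AA.mp haA
    simp only [Finset.mem_union, Finset.mem_insert, Finset.mem_singleton, NA, Finset.mem_inter,
      mem_NT, Finset.mem_erase, SimpleGraph.mem_neighborFinset]
    by_cases hax : a = x
    · left; left; left; exact hax
    rcases D.Nx.all v hv with rfl | rfl | rfl
    · rcases h with h | ⟨w, h1, h2, h3⟩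
      · rcases D.Ny.all a h with h | h | h
        · rw [h, D.cyb] at ca; exact absurd ca (by simp)
        · exact absurd h hax
        · left; left; right; exact h
      · have hw : w = yb := uniq_same (P.le1 v) h1 D.Ny.a1 h2 (by rw [D.cyb, D.ty.1])
        subst hw
        left; right; exact ⟨⟨h3, ca⟩, haA⟩
    · rcases h with h | ⟨w, h1, h2, h3⟩
      · rcases D.Nz.all a h with h | h | h
        · rw [h, D.czb] at ca; exact absurd ca (by simp)
        · exact absurd h hax
        · rw [h, D.mp] at ma; exact absurd ma (by simp)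
      · have hw : w = zb := uniq_same (P.le1 v) h1 D.Nz.a1 h2 (by rw [D.czb, D.cz])
        subst hw
        right; left; exact ⟨⟨h3, ca⟩, haA⟩
    · rcases h with h | ⟨w, h1, h2, h3⟩
      · right; right; exact ⟨hax, h⟩
      · exact absurd (md_zero D.mt w h1 h2) (fun h => h)
  have h1 := Finset.card_le_card hsub
  have h2 := Finset.card_union_le ({x, y'} ∪ NA G c yb) (NA G c zb ∪ (G.neighborFinset t).erase x)
  have h3 := Finset.card_union_le ({x, y'} : Finset V) (NA G c yb)
  have h4 := Finset.card_union_le (NA G c zb) ((G.neighborFinset t).erase x)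
  have h5 : ({x, y'} : Finset V).card ≤ 2 := Finset.card_le_two
  have h6 := card_NA_le P D.czb (D.zb1 P)
  have h8 := card_erase_nb P.reg D.Nx.a3.symm
  omega

/-- footprint of a token at a `T0` vertex -/
def TF0 (G : SimpleGraph V) (y u : V) : Prop := u = y ∨ G.Adj y u

/-- footprint of the other token -/
def TF1 (G : SimpleGraph V) [DecidableRel G.Adj] (c : V → Bool) (x y yb z zb p pb u : V) : Prop :=
  u = z ∨ u = zb ∨ u = x ∨ u = p ∨ u = pb ∨ (¬ T0 G c yb ∧ u = y)

lemma PS.TF0_cov {c : V → Bool} (P : PS G c) (hT : NoTri G) (hQ : NoQuad G) (hA : NoS G c)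
    {y yb a u : V} (ty : T0 G c y) (hyb : G.Adj y yb) (cyb : c yb = false)
    (ha : a ∈ AA G c) (h1 : TF0 G y u) (h2 : FF G c a u) :
    a ∈ NA G c y ∪ NA G c yb := by
  obtain ⟨ca, ma, _⟩ := mem_AA.mp ha
  simp only [Finset.mem_union, NA, Finset.mem_inter, mem_NT]
  cases cu : c u
  · obtain ⟨w, hw, hw'⟩ := FF_false ca ma h2 cu
    have cw : c w = false := nb_false ca ma hw
    have huy : u = y ∨ u = yb := by
      rcases h1 with h | h
      · exact Or.inl h
      · right
        exact uniq_same (P.le1 y) h hyb (by rw [cu, ty.1]) (by rw [cyb, ty.1])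
    have hwy : w = y ∨ w = yb := by
      rcases hw' with h | ⟨hwu, _⟩
      · rw [← h]; exact huy
      · rcases huy with h | h
        · right
          rw [h] at hwu
          exact uniq_same (P.le1 y) hwu.symm hyb (by rw [cw, ty.1]) (by rw [cyb, ty.1])
        · left
          rw [h] at hwu
          exact uniq_same (P.le1 yb) hwu.symm hyb.symm (by rw [cw, cyb]) (by rw [cyb, ty.1])
    rcases hwy with h | h
    · left; rw [h] at hw; exact ⟨⟨hw.symm, ca⟩, ha⟩
    · right; rw [h] at hw; exact ⟨⟨hw.symm, ca⟩, ha⟩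
  · obtain ⟨z, tz, hz, hzu⟩ := FF_true ha h2 cu
    have hyu : G.Adj y u := by
      rcases h1 with h | h
      · rw [h, ty.1] at cu; exact absurd cu (by simp)
      · exact h
    have : y = z := P.uniqT0 hT hQ hA cu (ty.2.2 u hyu cu) ty tz hyu.symm hzu.symm
    left; rw [this]; exact ⟨⟨hz.symm, ca⟩, ha⟩

open scoped Classical in
noncomputable def TC1 (G : SimpleGraph V) [DecidableRel G.Adj] (c : V → Bool) (y yb zb : V) :
    Finset V :=
  (NA G c y ∪ NA G c zb) ∪ (if T0 G c yb then ∅ else NA G c yb)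

lemma D1.TF1_cov {c : V → Bool} (P : PS G c) (hT : NoTri G) (hQ : NoQuad G) (hA : NoS G c)
    {x y yb y' z zb p pb t : V} (D : D1 G c x y yb y' z zb p pb t) {a u : V}
    (ha : a ∈ AA G c) (h1 : TF1 G c x y yb z zb p pb u) (h2 : FF G c a u) :
    a ∈ TC1 G c y yb zb := by
  obtain ⟨ca, ma, _⟩ := mem_AA.mp ha
  have hxA : x ∈ AA G c := mem_AA.mpr ⟨D.cx, D.mx, y, D.Nx.a1, D.ty⟩
  have hxNA : x ∈ NA G c y := by
    rw [NA, Finset.mem_inter, mem_NT]
    exact ⟨⟨D.Nx.a1.symm, D.cx⟩, hxA⟩
  have haz : G.Adj a z → a = x := by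
    intro h
    rcases D.Nz.all a h.symm with h | h | h
    · rw [h, D.czb] at ca; exact absurd ca (by simp)
    · exact h
    · rw [h, D.mp] at ma; exact absurd ma (by simp)
  have hazb : G.Adj a zb → a ∈ NA G c zb := by
    intro h
    rw [NA, Finset.mem_inter, mem_NT]
    exact ⟨⟨h.symm, ca⟩, ha⟩
  unfold TC1
  rw [Finset.mem_union, Finset.mem_union]
  rcases h1 with h | h | h | h | h | ⟨hn, h⟩
  · subst h
    obtain ⟨w, hw, hw'⟩ := FF_false ca ma h2 D.cz
    left
    rcases hw' with h | ⟨hwu, hc⟩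
    · left; rw [haz (by rw [h]; exact hw)]; exact hxNA
    · right
      have : w = zb := uniq_same (P.le1 u) hwu.symm D.Nz.a1 hc.symm (by rw [D.czb, D.cz])
      rw [this] at hw
      exact hazb hw
  · subst h
    obtain ⟨w, hw, hw'⟩ := FF_false ca ma h2 D.czb
    left
    rcases hw' with h | ⟨hwu, hc⟩
    · right; exact hazb (by rw [h]; exact hw)
    · left
      have : w = z := uniq_same (P.le1 u) hwu.symm D.Nz.a1.symm hc.symm (by rw [D.czb, D.cz])
      rw [this] at hw
      rw [haz hw]; exact hxNA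
  · subst h
    obtain ⟨y2, ty2, hy2, hy2u⟩ := FF_true ha h2 D.cx
    left; left
    have : y = y2 := P.uniqT0 hT hQ hA D.cx D.mx D.ty ty2 D.Nx.a1 hy2u.symm
    rw [this, NA, Finset.mem_inter, mem_NT]
    exact ⟨⟨hy2.symm, ca⟩, ha⟩
  · subst h
    obtain ⟨y2, ty2, hy2, hy2u⟩ := FF_true ha h2 D.cp
    have := ty2.2.2 u hy2u D.cp
    rw [D.mp] at this; exact absurd this (by simp)
  · subst h
    obtain ⟨y2, ty2, hy2, hy2u⟩ := FF_true ha h2 D.cpb
    have := ty2.2.2 u hy2u D.cpb
    rw [D.pb1 P] at this; exact absurd this (by simp)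
  · subst h
    obtain ⟨w, hw, hw'⟩ := FF_false ca ma h2 D.ty.1
    rw [if_neg hn]
    rcases hw' with h | ⟨hwu, hc⟩
    · left; left
      rw [NA, Finset.mem_inter, mem_NT]
      exact ⟨⟨by rw [h]; exact hw.symm, ca⟩, ha⟩
    · right
      have : w = yb := uniq_same (P.le1 u) hwu.symm D.Ny.a1 hc.symm (by rw [D.cyb, D.ty.1])
      rw [this] at hw
      rw [NA, Finset.mem_inter, mem_NT]
      exact ⟨⟨hw.symm, ca⟩, ha⟩

end Pool.Agent.Helper6_lin
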