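import Pool.Agent.Helper6_lin.QRule

/-!
The packing theorem.
-/

set_option linter.unusedSectionVars false
set_option linter.unusedTactic false
set_option linter.unnecessarySeqFocus false
set_option linter.unusedVariables false

namespace Pool.Agent.Helper6_lin

open Finset

variable {V : Type} [Fintype V] [DecidableEq V] {G : SimpleGraph V} [DecidableRel G.Adj]

lemma FF_not_one {c : V → Bool} {x p : V} (hx : x ∈ AA G c) (cp : c p = true) (mp : md G c p = 1) :
    ¬ FF G c x p := by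
  intro h
  obtain ⟨y, ty, _, hy⟩ := FF_true hx h cp
  have := ty.2.2 p hy cp
  omega

lemma D1.memAA {c : V → Bool} {x y yb y' z zb p pb t : V} (D : D1 G c x y yb y' z zb p pb t) :
    x ∈ AA G c := mem_AA.mpr ⟨D.cx, D.mx, y, D.Nx.a1, D.ty⟩

lemma D0.memAA {c : V → Bool} {x y yb y' s t : V} (D : D0 G c x y yb y' s t) :
    x ∈ AA G c := mem_AA.mpr ⟨D.cx, D.mx, y, D.Nx.a1, D.ty⟩

/-- full state -/
structure St (G : SimpleGraph V) [DecidableRel G.Adj] (c cr : V → Bool) (F : V → Prop)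
    (X Blk : Finset V) (r : ℕ) : Prop where
  st : St0 G c cr F X r
  blk : Blk.card ≤ 12 * r
  free : ∀ a ∈ AA G c, a ∉ Blk → ∀ u, FF G c a u → ¬ F u
  pc : (r = 0 ∨ 4 ≤ imb c) → PC G c F Blk

lemma stepA {c cr : V → Bool} (P : PS G c) (hT : NoTri G) (hQ : NoQuad G) (hA : NoS G c)
    {F : V → Prop} {X Blk : Finset V} {r : ℕ} (S : St G c cr F X Blk r)
    {x y yb y' s t : V} (D : D0 G c x y yb y' s t) (hx : x ∉ Blk)
    {x2 : V} (hx2 : x2 ∈ AA G c) (hx2b : x2 ∉ Blk) (hx2c : x2 ∉ Cov G c x) :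
    ∃ c3 F3 X3 Blk3, St G c c3 F3 X3 Blk3 (r + 1) := by
  obtain ⟨cx2, mx2, v, hv, tv⟩ := mem_AA.mp hx2
  obtain ⟨vb, b, Nv, cvb, cb⟩ := split1' P.reg tv.2.1 hv.symm (by rw [cx2, tv.1]; simp)
  rw [tv.1] at cvb cb
  have hcon : ∀ u, FF G c x u → FF G c x2 u → False := by
    intro u h1 h2
    exact hx2c (P.con_Cov hT hQ hA D.memAA hx2 h1 h2)
  have hTFF : ∀ u, TF0 G v u → FF G c x2 u := by
    intro u hu
    rcases hu with rfl | hu
    · exact Or.inr (Or.inl hv)
    · exact Or.inr (Or.inr (Or.inr ⟨v, hv, tv, hu⟩))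
  obtain ⟨c3, X3, S3⟩ := unit0 P.reg hT P.le1 S.st D Nv tv cvb cx2 cb
    (S.free x D.memAA hx)
    (fun u hu => S.free x2 hx2 hx2b u (hTFF u hu))
    (fun u hu h => hcon u h (hTFF u hu))
  refine ⟨c3, _, X3, (Blk ∪ Cov G c x) ∪ (NA G c v ∪ NA G c vb), S3, ?_, ?_, ?_⟩
  · have h1 := Finset.card_union_le (Blk ∪ Cov G c x) (NA G c v ∪ NA G c vb)
    have h2 := Finset.card_union_le Blk (Cov G c x)
    have h3 := Finset.card_union_le (NA G c v) (NA G c vb)
    have h4 := card_NA_le P tv.1 tv.2.1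
    have mvb : md G c vb = 1 := by
      have h1 := P.le1 vb
      have h2 := one_le_md (c := c) Nv.a1.symm (by rw [tv.1, cvb])
      omega
    have h5 := card_NA_le P cvb mvb
    have h6 := D.card_Cov P
    have h7 := S.blk
    omega
  · intro a ha hab u hu
    simp only [Finset.mem_union, not_or] at hab
    rintro (h | h | h)
    · exact S.free a ha hab.1.1 u hu h
    · exact hab.1.2 (P.con_Cov hT hQ hA D.memAA ha h hu)
    · have := P.TF0_cov hT hQ hA tv Nv.a1 cvb ha h hu
      simp only [Finset.mem_union] at this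
      rcases this with h | h
      · exact hab.2.1 h
      · exact hab.2.2 h
  · intro hr
    have h4 : 4 ≤ imb c := by
      rcases hr with h | h
      · exact absurd h (by omega)
      · exact h
    intro x' y1 yb1 y1' z1 zb1 p1 pb1 t1 E hE
    simp only [Finset.mem_union, not_or] at hE
    obtain ⟨hp, hpb⟩ := S.pc (Or.inr h4) _ _ _ _ _ _ _ _ _ E hE.1.1
    have key : ∀ q, c q = true → md G c q = 1 → ¬ F q →
        ¬ (F q ∨ FF G c x q ∨ TF0 G v q) := by
      rintro q cq mq hq (h | h | h)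
      · exact hq h
      · exact FF_not_one D.memAA cq mq h
      · rcases h with rfl | h
        · rw [tv.1] at cq; exact absurd cq (by simp)
        · have := tv.2.2 q h cq; omega
    exact ⟨key p1 E.cp E.mp hp, key pb1 E.cpb (E.pb1 P) hpb⟩

lemma stepB {c cr : V → Bool} (P : PS G c) (hT : NoTri G) (hQ : NoQuad G) (hA : NoS G c)
    {F : V → Prop} {X Blk : Finset V} {r : ℕ} (S : St G c cr F X Blk r)
    (hr : r = 0 ∨ 4 ≤ imb c)
    {x y yb y' z zb p pb t : V} (D : D1 G c x y yb y' z zb p pb t) (hx : x ∉ Blk)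
    {x2 y2 yb2 y2' z2 zb2 p2 pb2 t2 : V} (E : D1 G c x2 y2 yb2 y2' z2 zb2 p2 pb2 t2)
    (hx2 : x2 ∉ Blk) (hcon : ∀ u, FF G c x u → FF G c x2 u → False)
    (hcard : (Cov G c x).card + (TC1 G c y2 yb2 zb2).card ≤ 12) :
    ∃ c3 F3 X3 Blk3, St G c c3 F3 X3 Blk3 (r + 1) := by
  obtain ⟨hFp, hFpb⟩ := S.pc hr _ _ _ _ _ _ _ _ _ E hx2
  have hTFF : ∀ u, TF1 G c x2 y2 yb2 z2 zb2 p2 pb2 u → FF G c x2 u ∨ u = p2 ∨ u = pb2 := by
    intro u hu
    rcases hu with h | h | h | h | h | ⟨_, h⟩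
    · subst h; exact Or.inl (Or.inr (Or.inl E.Nx.a2))
    · subst h; exact Or.inl (Or.inr (Or.inr (Or.inl ⟨z2, E.Nx.a2, E.Nz.a1, by rw [E.czb, E.cz]⟩)))
    · subst h; exact Or.inl (Or.inl rfl)
    · exact Or.inr (Or.inl h)
    · exact Or.inr (Or.inr h)
    · subst h; exact Or.inl (Or.inr (Or.inl E.Nx.a1))
  have hTF : ∀ u, TF1 G c x2 y2 yb2 z2 zb2 p2 pb2 u → ¬ F u := by
    intro u hu
    rcases hTFF u hu with h | h | h
    · exact S.free x2 E.memAA hx2 u h
    · rw [h]; exact hFp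
    · rw [h]; exact hFpb
  have hd : ∀ u, TF1 G c x2 y2 yb2 z2 zb2 p2 pb2 u → ¬ FF G c x u := by
    intro u hu h'
    rcases hTFF u hu with h | h | h
    · exact hcon u h' h
    · subst h; exact FF_not_one D.memAA E.cp E.mp h'
    · subst h; exact FF_not_one D.memAA E.cpb (E.pb1 P) h'
  obtain ⟨c3, X3, S3⟩ := unit1 P.reg hT P S.st D E (S.free x D.memAA hx) hTF hd
  refine ⟨c3, _, X3, (Blk ∪ Cov G c x) ∪ TC1 G c y2 yb2 zb2, S3, ?_, ?_, ?_⟩
  · have h1 := Finset.card_union_le (Blk ∪ Cov G c x) (TC1 G c y2 yb2 zb2)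
    have h2 := Finset.card_union_le Blk (Cov G c x)
    have h7 := S.blk
    omega
  · intro a ha hab u hu
    rw [Finset.mem_union, Finset.mem_union, not_or, not_or] at hab
    rintro (h | h | h)
    · exact S.free a ha hab.1.1 u hu h
    · exact hab.1.2 (P.con_Cov hT hQ hA D.memAA ha h hu)
    · exact hab.2 (E.TF1_cov P hT hQ hA ha h hu)
  · intro hr'
    have h4 : 4 ≤ imb c := by
      rcases hr' with h | h
      · exact absurd h (by omega)
      · exact h
    intro x' y1 yb1 y1' z1 zb1 p1 pb1 t1 E' hE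
    rw [Finset.mem_union, Finset.mem_union, not_or, not_or] at hE
    obtain ⟨hp, hpb⟩ := S.pc hr _ _ _ _ _ _ _ _ _ E' hE.1.1
    have hx2T : x2 ∈ TC1 G c y2 yb2 zb2 := by
      unfold TC1
      simp only [Finset.mem_union, NA, Finset.mem_inter, mem_NT]
      exact Or.inl (Or.inl ⟨⟨E.Nx.a1.symm, E.cx⟩, E.memAA⟩)
    have np : p1 ≠ p2 := by
      intro e
      have hz : z1 = z2 := by
        by_contra hne
        exact P.R1 E.cp E.mp E'.cz E'.mz E.cz E.mz (by rw [← e]; exact E'.Nz.a3.symm)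
          E.Nz.a3.symm hne (fun h => hT z1 z2 p2 h E.Nz.a3 (by rw [← e]; exact E'.Nz.a3))
      have hxx : x' = x2 := by
        have h := E'.Nz.a2
        rw [hz] at h
        rcases E.Nz.all x' h with h | h | h
        · have := E'.cx; rw [h, E.czb] at this; exact absurd this (by simp)
        · exact h
        · have := E'.mx; rw [h, E.mp] at this; exact absurd this (by simp)
      rw [hxx] at hE
      exact hE.2 hx2T
    have npb : p1 ≠ pb2 := by
      intro e
      by_cases h1 : z1 = yb2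
      · have hnT : ¬ T0 G c yb2 := by
          intro h
          rw [← h1] at h
          have := h.2.2 p1 E'.Nz.a3 E'.cp
          rw [E'.mp] at this; exact absurd this (by simp)
        apply hE.2
        unfold TC1
        rw [if_neg hnT]
        simp only [Finset.mem_union, NA, Finset.mem_inter, mem_NT]
        exact Or.inr ⟨⟨by rw [← h1]; exact E'.Nz.a2, E'.cx⟩, E'.memAA⟩
      by_cases h2 : G.Adj z1 y2'
      · have m0 : md G c y2' = 0 := E.ty.2.2 y2' E.Ny.a3 E.cy'
        have hxy : x' = y2' := by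
          rcases E'.Nz.all y2' h2 with h | h | h
          · have := E.cy'; rw [h, E'.czb] at this; exact absurd this (by simp)
          · exact h.symm
          · rw [h, E'.mp] at m0; exact absurd m0 (by simp)
        apply hE.2
        unfold TC1
        simp only [Finset.mem_union, NA, Finset.mem_inter, mem_NT]
        exact Or.inl (Or.inl ⟨⟨by rw [hxy]; exact E.Ny.a3, E'.cx⟩, E'.memAA⟩)
      refine P.Q1 h4 hT hQ E E'.cz E'.mz (by rw [← e]; exact E'.Nz.a3.symm) ?_ h1 h2
      intro u hu cu hune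
      rcases E'.Nz.all u hu with h | h | h
      · rw [h, E'.czb] at cu; exact absurd cu (by simp)
      · rw [h]; exact E'.mx
      · rw [h, e] at hune; exact absurd rfl hune
    have key : ∀ q, c q = true → md G c q = 1 → ¬ F q → q ≠ p2 → q ≠ pb2 →
        ¬ (F q ∨ FF G c x q ∨ TF1 G c x2 y2 yb2 z2 zb2 p2 pb2 q) := by
      rintro q cq mq hq n1 n2 (h | h | h)
      · exact hq h
      · exact FF_not_one D.memAA cq mq h
      · rcases h with h | h | h | h | h | ⟨_, h⟩
        · rw [h, E.cz] at cq; exact absurd cq (by simp)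
        · rw [h, E.czb] at cq; exact absurd cq (by simp)
        · rw [h, E.mx] at mq; exact absurd mq (by simp)
        · exact n1 h
        · exact n2 h
        · rw [h, E.ty.1] at cq; exact absurd cq (by simp)
    refine ⟨key p1 E'.cp E'.mp hp np npb, key pb1 E'.cpb (E'.pb1 P) hpb ?_ ?_⟩
    · intro e
      have : p1 = pb2 := uniq_same (v := p2) (P.le1 p2) (by rw [← e]; exact E'.ap.symm) E.ap
        (by rw [E'.cp, E.cp]) (by rw [E.cpb, E.cp])
      exact npb this
    · intro e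
      have : p1 = p2 := uniq_same (v := pb2) (P.le1 pb2) (by rw [← e]; exact E'.ap.symm) E.ap.symm
        (by rw [E'.cp, E.cpb]) (by rw [E.cpb, E.cp])
      exact np this

lemma TC1_card_T {c : V → Bool} (P : PS G c) {x y yb y' z zb p pb t : V}
    (D : D1 G c x y yb y' z zb p pb t) (h : T0 G c yb) : (TC1 G c y yb zb).card ≤ 4 := by
  unfold TC1
  rw [if_pos h, Finset.union_empty]
  have h1 := Finset.card_union_le (NA G c y) (NA G c zb)
  have h2 := card_NA_le P D.ty.1 D.ty.2.1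
  have h3 := card_NA_le P D.czb (D.zb1 P)
  omega

lemma TC1_card_F {c : V → Bool} (P : PS G c) {x y yb y' z zb p pb t : V}
    (D : D1 G c x y yb y' z zb p pb t) (h : ¬ T0 G c yb) : (TC1 G c y yb zb).card ≤ 5 := by
  unfold TC1
  rw [if_neg h]
  have h1 := Finset.card_union_le (NA G c y) (NA G c zb)
  have h4 := Finset.card_union_le (NA G c y ∪ NA G c zb) (NA G c yb)
  have h2 := card_NA_le P D.ty.1 D.ty.2.1
  have h3 := card_NA_le P D.czb (D.zb1 P)
  have h5 := card_NA_lt P D.cyb (D.yb1 P) h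
  omega

lemma step {c cr : V → Bool} (P : PS G c) (hT : NoTri G) (hQ : NoQuad G) (hA : NoS G c)
    {F : V → Prop} {X Blk : Finset V} {r : ℕ} (S : St G c cr F X Blk r)
    (hr : 2 * ((r : ℤ) + 1) ≤ imb c) :
    ∃ c3 F3 X3 Blk3, St G c c3 F3 X3 Blk3 (r + 1) := by
  classical
  have hcard := P.card_AA hT hQ hA
  have hblk := S.blk
  have hR : 12 ≤ ((AA G c) \ Blk).card := by
    have := Finset.le_card_sdiff Blk (AA G c)
    omega
  have hr0 : r = 0 ∨ 4 ≤ imb c := by
    rcases Nat.eq_zero_or_pos r with h | h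
    · exact Or.inl h
    · right; omega
  -- choose a second vertex
  have second : ∀ x, (Cov G c x).card ≤ 8 → ∃ x2 ∈ AA G c, x2 ∉ Blk ∧ x2 ∉ Cov G c x := by
    intro x hx
    have : 0 < (((AA G c) \ Blk) \ Cov G c x).card := by
      have := Finset.le_card_sdiff (Cov G c x) ((AA G c) \ Blk)
      omega
    obtain ⟨x2, hx2⟩ := Finset.card_pos.mp this
    simp only [Finset.mem_sdiff] at hx2
    exact ⟨x2, hx2.1.1, hx2.1.2, hx2.2⟩
  by_cases hA0 : ∃ x ∈ AA G c, x ∉ Blk ∧ ∃ y yb y' s t, D0 G c x y yb y' s t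
  · obtain ⟨x, hx, hxb, y, yb, y', s, t, D⟩ := hA0
    obtain ⟨x2, h1, h2, h3⟩ := second x (D.card_Cov P)
    exact stepA P hT hQ hA S D hxb h1 h2 h3
  · push Not at hA0
    have all1 : ∀ x ∈ AA G c, x ∉ Blk → ∃ y yb y' z zb p pb t, D1 G c x y yb y' z zb p pb t := by
      intro x hx hxb
      rcases P.data hT hQ hA hx with ⟨y, yb, y', s, t, D⟩ | h
      · exact absurd D (hA0 x hx hxb y yb y' s t)
      · exact h
    obtain ⟨x, hx⟩ := Finset.card_pos.mp (by omega : 0 < ((AA G c) \ Blk).card)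
    rw [Finset.mem_sdiff] at hx
    obtain ⟨y, yb, y', z, zb, p, pb, t, D⟩ := all1 x hx.1 hx.2
    have hC := D.card_Cov P
    have hN := card_NA_le P D.cyb (D.yb1 P)
    obtain ⟨x2, h1, h2, h3⟩ := second x (by omega)
    obtain ⟨y2, yb2, y2', z2, zb2, p2, pb2, t2, E⟩ := all1 x2 h1 h2
    have hcon : ∀ u, FF G c x u → FF G c x2 u → False := by
      intro u g1 g2
      exact h3 (P.con_Cov hT hQ hA D.memAA h1 g1 g2)
    have hC2 := E.card_Cov P
    have hN2 := card_NA_le P E.cyb (E.yb1 P)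
    by_cases t2' : T0 G c yb2
    · have := TC1_card_T P E t2'
      exact stepB P hT hQ hA S hr0 D hx.2 E h2 hcon (by omega)
    · by_cases t1' : T0 G c yb
      · have := TC1_card_T P D t1'
        exact stepB P hT hQ hA S hr0 E h2 D hx.2 (fun u g1 g2 => hcon u g2 g1) (by omega)
      · have := TC1_card_F P E t2'
        have := card_NA_lt P D.cyb (D.yb1 P) t1'
        exact stepB P hT hQ hA S hr0 D hx.2 E h2 hcon (by omega)

lemma PS.pack {c : V → Bool} (P : PS G c) (hT : NoTri G) (hQ : NoQuad G) (hA : NoS G c) :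
    ∃ c', Bal G c' Finset.univ := by
  have key : ∀ r : ℕ, 2 * (r : ℤ) ≤ imb c → ∃ cr F X Blk, St G c cr F X Blk r := by
    intro r
    induction r with
    | zero =>
      intro _
      refine ⟨c, fun _ => False, ∅, ∅, ⟨?_, ?_, Bal_empty c, ?_, ?_⟩, ?_, ?_, ?_⟩
      · intro u _; exact ⟨rfl, rfl⟩
      · intro u hu; simp at hu
      · intro u _; exact P.le1 u
      · simp
      · simp
      · intro a _ _ u _ h; exact h
      · intro _ x y yb y' z zb p pb t _ _; exact ⟨fun h => h, fun h => h⟩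
    | succ r ih =>
      intro hr
      push_cast at hr
      obtain ⟨cr, F, X, Blk, S⟩ := ih (by omega)
      exact step P hT hQ hA S hr
  have hd := P.pos
  have he := imb_even P.reg c
  obtain ⟨k, hk⟩ := he
  obtain ⟨cr, F, X, Blk, S⟩ := key k.toNat (by rw [Int.toNat_of_nonneg (by omega)]; omega)
  refine ⟨cr, Bal_univ_of P.reg ?_ S.st.bal S.st.le⟩
  rw [S.st.im, Int.toNat_of_nonneg (by omega)]
  omega

end Pool.Agent.Helper6_lin
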