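import Pool.Agent.Helper6_lin.Rules

/-!
Pairs of isomorphic pieces of opposite colours: paths on three, four and five vertices and
five-cycles.
-/

set_option linter.unusedSectionVars false
set_option linter.unusedTactic false
set_option linter.unnecessarySeqFocus false

namespace Pool.Agent.Helper6_lin

open Finset

variable {V : Type} [Fintype V] [DecidableEq V] {G : SimpleGraph V} [DecidableRel G.Adj]

lemma closed_of_md {c : V → Bool} {k : ℕ} (H : Fin k → Fin k → Bool) (P : Fin k → V)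
    (hP : Function.Injective P) (b : Bool) (hc : ∀ i, c (P i) = b)
    (ha : ∀ i j, H i j = true → G.Adj (P i) (P j))
    (hm : ∀ i, md G c (P i) ≤ (Finset.univ.filter (fun j => H i j = true)).card) :
    ∀ i v, G.Adj (P i) v → c v = b → ∃ j, H i j = true ∧ v = P j := by
  intro i v hv hcv
  have := md_list (c := c) (u := P i) ((Finset.univ.filter (fun j => H i j = true)).image P)
    (by rw [Finset.card_image_of_injective _ hP]; exact hm i)
    (by
      intro w hw
      simp only [Finset.mem_image, Finset.mem_filter, Finset.mem_univ, true_and] at hw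
      obtain ⟨j, hj, rfl⟩ := hw
      exact ⟨ha i j hj, by rw [hc, hc]⟩) v hv (by rw [hcv, hc])
  simp only [Finset.mem_image, Finset.mem_filter, Finset.mem_univ, true_and] at this
  obtain ⟨j, hj, hjv⟩ := this
  exact ⟨j, hj, hjv.symm⟩

lemma Bal_graph {c : V → Bool} {k : ℕ} (hk : k ≤ 4) (H : Fin k → Fin k → Bool)
    (hH : ∀ i j, H i j = true → i.val + 1 = j.val ∨ j.val + 1 = i.val) (P Q : Fin k → V)
    (hP : Function.Injective P) (hQ : Function.Injective Q)
    (hcP : ∀ i, c (P i) = true) (hcQ : ∀ i, c (Q i) = false)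
    (hPa : ∀ i j, H i j = true → G.Adj (P i) (P j))
    (hQa : ∀ i j, H i j = true → G.Adj (Q i) (Q j))
    (hPm : ∀ i, md G c (P i) ≤ (Finset.univ.filter (fun j => H i j = true)).card)
    (hQm : ∀ i, md G c (Q i) ≤ (Finset.univ.filter (fun j => H i j = true)).card) :
    Bal G c (Finset.univ.image P ∪ Finset.univ.image Q) := by
  have clP := closed_of_md H P hP true hcP hPa hPm
  have clQ := closed_of_md H Q hQ false hcQ hQa hQm
  apply Bal_pair hk P Q hP hQ hcP hcQ
  · intro i j
    constructor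
    · intro h
      obtain ⟨j', hj', e⟩ := clP i _ h (hcP j)
      rw [← hP e] at hj'
      exact hQa i j hj'
    · intro h
      obtain ⟨j', hj', e⟩ := clQ i _ h (hcQ j)
      rw [← hQ e] at hj'
      exact hPa i j hj'
  · intro i v h1 h2
    obtain ⟨j, h, e⟩ := clP i v h1 h2
    exact ⟨j, e, hH i j h⟩
  · intro i v h1 h2
    obtain ⟨j, h, e⟩ := clQ i v h1 h2
    exact ⟨j, e, hH i j h⟩

/-- a closed path `a b d` -/
structure P3 (G : SimpleGraph V) [DecidableRel G.Adj] (c : V → Bool) (k : Bool) (a b d : V) :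
    Prop where
  h1 : G.Adj a b
  h2 : G.Adj b d
  ne : a ≠ d
  c1 : c a = k
  c2 : c b = k
  c3 : c d = k
  m1 : md G c a ≤ 1
  m2 : md G c b ≤ 2
  m3 : md G c d ≤ 1

structure P4 (G : SimpleGraph V) [DecidableRel G.Adj] (c : V → Bool) (k : Bool) (a b d e : V) :
    Prop where
  h1 : G.Adj a b
  h2 : G.Adj b d
  h3 : G.Adj d e
  n1 : a ≠ d
  n2 : a ≠ e
  n3 : b ≠ e
  c1 : c a = k
  c2 : c b = k
  c3 : c d = k
  c4 : c e = k
  m1 : md G c a ≤ 1
  m2 : md G c b ≤ 2
  m3 : md G c d ≤ 2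
  m4 : md G c e ≤ 1

structure P5 (G : SimpleGraph V) [DecidableRel G.Adj] (c : V → Bool) (k : Bool) (a b d e f : V) :
    Prop where
  h1 : G.Adj a b
  h2 : G.Adj b d
  h3 : G.Adj d e
  h4 : G.Adj e f
  n1 : a ≠ d
  n2 : a ≠ e
  n3 : a ≠ f
  n4 : b ≠ e
  n5 : b ≠ f
  n6 : d ≠ f
  c1 : c a = k
  c2 : c b = k
  c3 : c d = k
  c4 : c e = k
  c5 : c f = k
  m1 : md G c a ≤ 1
  m2 : md G c b ≤ 2
  m3 : md G c d ≤ 2
  m4 : md G c e ≤ 2
  m5 : md G c f ≤ 1

def H3 : Fin 3 → Fin 3 → Bool := fun i j => i.val + 1 == j.val || j.val + 1 == i.val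
def H4 : Fin 4 → Fin 4 → Bool := fun i j => i.val + 1 == j.val || j.val + 1 == i.val
def H5 : Fin 5 → Fin 5 → Bool := fun i j => i.val + 1 == j.val || j.val + 1 == i.val
def C5 : Fin 5 → Fin 5 → Bool := fun i j => (i.val + 1) % 5 == j.val || (j.val + 1) % 5 == i.val

lemma inj3 {a b d : V} (h1 : a ≠ b) (h2 : b ≠ d) (h3 : a ≠ d) : Function.Injective ![a, b, d] := by
  intro i j h
  fin_cases i <;> fin_cases j <;> simp at h ⊢
  · exact h1 h
  · exact h3 h
  · exact h1 h.symm
  · exact h2 h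
  · exact h3 h.symm
  · exact h2 h.symm

lemma inj4 {a b d e : V} (h1 : a ≠ b) (h2 : a ≠ d) (h3 : a ≠ e) (h4 : b ≠ d) (h5 : b ≠ e)
    (h6 : d ≠ e) : Function.Injective ![a, b, d, e] := by
  intro i j h
  fin_cases i <;> fin_cases j <;> simp at h ⊢
  · exact h1 h
  · exact h2 h
  · exact h3 h
  · exact h1 h.symm
  · exact h4 h
  · exact h5 h
  · exact h2 h.symm
  · exact h4 h.symm
  · exact h6 h
  · exact h3 h.symm
  · exact h5 h.symm
  · exact h6 h.symm

lemma inj5 {a b d e f : V} (h1 : a ≠ b) (h2 : a ≠ d) (h3 : a ≠ e) (h4 : a ≠ f) (h5 : b ≠ d)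
    (h6 : b ≠ e) (h7 : b ≠ f) (h8 : d ≠ e) (h9 : d ≠ f) (h10 : e ≠ f) :
    Function.Injective ![a, b, d, e, f] := by
  intro i j h
  fin_cases i <;> fin_cases j <;> simp at h ⊢
  · exact h1 h
  · exact h2 h
  · exact h3 h
  · exact h4 h
  · exact h1 h.symm
  · exact h5 h
  · exact h6 h
  · exact h7 h
  · exact h2 h.symm
  · exact h5 h.symm
  · exact h8 h
  · exact h9 h
  · exact h3 h.symm
  · exact h6 h.symm
  · exact h8 h.symm
  · exact h10 h
  · exact h4 h.symm
  · exact h7 h.symm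
  · exact h9 h.symm
  · exact h10 h.symm

lemma P3.adj {c : V → Bool} {k : Bool} {a b d : V} (h : P3 G c k a b d) :
    ∀ i j, H3 i j = true → G.Adj (![a, b, d] i) (![a, b, d] j) := by
  intro i j hij
  fin_cases i <;> fin_cases j <;> simp [H3] at hij ⊢
  · exact h.h1
  · exact h.h1.symm
  · exact h.h2
  · exact h.h2.symm

lemma P3.mdl {c : V → Bool} {k : Bool} {a b d : V} (h : P3 G c k a b d) :
    ∀ i, md G c (![a, b, d] i) ≤ (Finset.univ.filter (fun j => H3 i j = true)).card := by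
  intro i
  fin_cases i
  · exact h.m1.trans (by decide)
  · exact h.m2.trans (by decide)
  · exact h.m3.trans (by decide)

lemma P4.adj {c : V → Bool} {k : Bool} {a b d e : V} (h : P4 G c k a b d e) :
    ∀ i j, H4 i j = true → G.Adj (![a, b, d, e] i) (![a, b, d, e] j) := by
  intro i j hij
  fin_cases i <;> fin_cases j <;> simp [H4] at hij ⊢
  · exact h.h1
  · exact h.h1.symm
  · exact h.h2
  · exact h.h2.symm
  · exact h.h3
  · exact h.h3.symm

lemma P4.mdl {c : V → Bool} {k : Bool} {a b d e : V} (h : P4 G c k a b d e) :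
    ∀ i, md G c (![a, b, d, e] i) ≤ (Finset.univ.filter (fun j => H4 i j = true)).card := by
  intro i
  fin_cases i
  · exact h.m1.trans (by decide)
  · exact h.m2.trans (by decide)
  · exact h.m3.trans (by decide)
  · exact h.m4.trans (by decide)

lemma P5.adj {c : V → Bool} {k : Bool} {a b d e f : V} (h : P5 G c k a b d e f) :
    ∀ i j, H5 i j = true → G.Adj (![a, b, d, e, f] i) (![a, b, d, e, f] j) := by
  intro i j hij
  fin_cases i <;> fin_cases j <;> simp [H5] at hij ⊢
  · exact h.h1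
  · exact h.h1.symm
  · exact h.h2
  · exact h.h2.symm
  · exact h.h3
  · exact h.h3.symm
  · exact h.h4
  · exact h.h4.symm

lemma P5.mdl {c : V → Bool} {k : Bool} {a b d e f : V} (h : P5 G c k a b d e f) :
    ∀ i, md G c (![a, b, d, e, f] i) ≤ (Finset.univ.filter (fun j => H5 i j = true)).card := by
  intro i
  fin_cases i
  · exact h.m1.trans (by decide)
  · exact h.m2.trans (by decide)
  · exact h.m3.trans (by decide)
  · exact h.m4.trans (by decide)
  · exact h.m5.trans (by decide)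

lemma Bal_P3 {c : V → Bool} {a b d a' b' d' : V} (h : P3 G c true a b d)
    (h' : P3 G c false a' b' d') : Bal G c {a, b, d, a', b', d'} := by
  have := Bal_graph (G := G) (c := c) (by norm_num) H3 (by decide) ![a, b, d] ![a', b', d']
    (inj3 h.h1.ne h.h2.ne h.ne) (inj3 h'.h1.ne h'.h2.ne h'.ne)
    (by intro i; fin_cases i; exacts [h.c1, h.c2, h.c3])
    (by intro i; fin_cases i; exacts [h'.c1, h'.c2, h'.c3])
    h.adj h'.adj h.mdl h'.mdl
  have he : (Finset.univ.image ![a, b, d] ∪ Finset.univ.image ![a', b', d']) =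
      ({a, b, d, a', b', d'} : Finset V) := by
    ext x
    simp [Fin.exists_fin_succ, or_assoc, eq_comm]
  rw [he] at this
  exact this

lemma Bal_P4 {c : V → Bool} {a b d e a' b' d' e' : V} (h : P4 G c true a b d e)
    (h' : P4 G c false a' b' d' e') : Bal G c {a, b, d, e, a', b', d', e'} := by
  have := Bal_graph (G := G) (c := c) (by norm_num) H4 (by decide) ![a, b, d, e] ![a', b', d', e']
    (inj4 h.h1.ne h.n1 h.n2 h.h2.ne h.n3 h.h3.ne) (inj4 h'.h1.ne h'.n1 h'.n2 h'.h2.ne h'.n3 h'.h3.ne)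
    (by intro i; fin_cases i; exacts [h.c1, h.c2, h.c3, h.c4])
    (by intro i; fin_cases i; exacts [h'.c1, h'.c2, h'.c3, h'.c4])
    h.adj h'.adj h.mdl h'.mdl
  have he : (Finset.univ.image ![a, b, d, e] ∪ Finset.univ.image ![a', b', d', e']) =
      ({a, b, d, e, a', b', d', e'} : Finset V) := by
    ext x
    simp [Fin.exists_fin_succ, or_assoc, eq_comm]
  rw [he] at this
  exact this

end Pool.Agent.Helper6_lin
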