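import Pool.Agent.Helper6_lin.SThree

/-!
Imbalance two: the component of a vertex with three `T0` neighbours is the Petersen graph.
-/

set_option linter.unusedSectionVars false
set_option linter.unusedTactic false
set_option linter.unnecessarySeqFocus false
set_option linter.unusedVariables false

namespace Pool.Agent.Helper6_lin

open Finset

variable {V : Type} [Fintype V] [DecidableEq V] {G : SimpleGraph V} [DecidableRel G.Adj]

lemma ne_col {c : V → Bool} {u v : V} (h1 : c u = true) (h2 : c v = false) : u ≠ v := by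
  rintro rfl; rw [h1] at h2; exact absurd h2 (by simp)

/-- a partner of a vertex with a `true` neighbour of degree one cannot be adjacent to `w` -/
lemma Hy.not_adj {c : V → Bool} (H : Hy G c) {x y z w : V} (S : S3 G c x y z w)
    {v vb b p : V} (N : Nb G v vb b p) (cv : c v = false) (cvb : c vb = false) (cb : c b = true)
    (mb : md G c b = 0) (cp : c p = true) (mp : md G c p = 1) : ¬ G.Adj w v := by
  intro h
  have : w = vb := uniq_same (H.P.le1 v) h.symm N.a1 (by rw [S.tw.1, cv]) (by rw [cvb, cv])
  subst this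
  exact H.star1 S N cv cb mb cp mp

/-- claim 5 -/
lemma Hy.claim5 {c : V → Bool} (H : Hy G c) {x y z w : V} (S : S3 G c x y z w)
    {x' yb y' z' zb' p pb t : V} (D : D1 G c x' y yb y' z' zb' p pb t) : False := by
  have P := H.P
  have hT := H.hT
  have hG := P.reg
  have cx := S.cx
  have cy := S.ty.1
  have cz := S.tz.1
  have cw := S.tw.1
  have my := S.ty.2.1
  have mz := S.tz.2.1
  have mw := S.tw.2.1
  have mx := S.mx
  have hxy := S.N.a1
  have hxz := S.N.a2
  have hxw := S.N.a3
  have aw : ¬ G.Adj w z' := H.not_adj S D.Nz D.cz D.czb D.cx D.mx D.cp D.mp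
  have az : ¬ G.Adj z z' := H.not_adj S.swp D.Nz D.cz D.czb D.cx D.mx D.cp D.mp
  have ay : ¬ G.Adj y z' := H.not_adj S.rot D.Nz D.cz D.czb D.cx D.mx D.cp D.mp
  have nT : ∀ v, T0 G c v → v ≠ z' := by
    rintro v tv rfl
    have := tv.2.2 p D.Nz.a3 D.cp
    rw [D.mp] at this; exact absurd this (by simp)
  have z'y := (nT y S.ty).symm
  have z'z := (nT z S.tz).symm
  have z'w := (nT w S.tw).symm
  have yz : ¬ G.Adj y z := fun h => hT x y z hxy h hxz
  have yw : ¬ G.Adj y w := fun h => hT x y w hxy h hxw
  have zw : ¬ G.Adj z w := fun h => hT x z w hxz h hxw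
  have xx' : x' ≠ x := by
    rintro rfl
    rcases S.N.all t D.Nx.a3 with e | e | e
    · have := D.mt; rw [e, my] at this; exact absurd this (by simp)
    · have := D.mt; rw [e, mz] at this; exact absurd this (by simp)
    · have := D.mt; rw [e, mw] at this; exact absurd this (by simp)
  have cx' := D.cx
  have cz' := D.cz
  have x'z : ¬ G.Adj z x' := by
    intro h
    rcases D.Nx.all z h.symm with e | e | e
    · exact S.N.ab e.symm
    · exact z'z e.symm
    · rw [e, D.mt] at mz; exact absurd mz (by simp)
  have x'w : ¬ G.Adj w x' := by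
    intro h
    rcases D.Nx.all w h.symm with e | e | e
    · exact S.N.ad e.symm
    · exact z'w e.symm
    · rw [e, D.mt] at mw; exact absurd mw (by simp)
  have xz' : ¬ G.Adj z' x := by
    intro h
    rcases S.N.all z' h.symm with e | e | e
    · exact z'y e
    · exact z'z e
    · exact z'w e
  have xnx' : ¬ G.Adj x x' := fun h => md_zero mx x' h (by rw [cx', cx])
  -- flips
  have n2 : z ∉ ([y] : List V) := by simp [S.N.ab.symm]
  have n3 : z' ∉ ([y, z] : List V) := by simp [z'y, z'z]
  have n4 : x ∉ ([y, z, z'] : List V) := by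
    simp [(ne_col cx cy), (ne_col cx cz), (ne_col cx cz')]
  have n5 : x' ∉ ([y, z, z', x] : List V) := by
    simp [(ne_col cx' cy), (ne_col cx' cz), (ne_col cx' cz'), xx']
  have d1 : ([y] : List V).Nodup := by simp
  have d2 : ([y, z] : List V).Nodup := by simp [S.N.ab]
  have d3 : ([y, z, z'] : List V).Nodup := by simp [S.N.ab, z'y.symm, z'z.symm]
  have d4 : ([y, z, z', x] : List V).Nodup := by
    simp [S.N.ab, z'y.symm, z'z.symm, (ne_col cx cy).symm, (ne_col cx cz).symm, (ne_col cx cz').symm]
  have d5 : ([y, z, z', x, x'] : List V).Nodup := by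
    simp [S.N.ab, z'y.symm, z'z.symm, (ne_col cx cy).symm, (ne_col cx cz).symm,
      (ne_col cx cz').symm, (ne_col cx' cy).symm, (ne_col cx' cz).symm, (ne_col cx' cz').symm, xx'.symm]
  have m2 : md G (flips c [y]) z = 1 := by
    have h := md_flips hG c d1 z
    rw [if_neg n2] at h
    simp only [List.map_cons, List.map_nil, List.sum_cons, List.sum_nil] at h
    rw [dl_far yz, mz] at h; omega
  have m3 : md G (flips c [y, z]) z' = 1 := by
    have h := md_flips hG c d2 z'
    rw [if_neg n3] at h
    simp only [List.map_cons, List.map_nil, List.sum_cons, List.sum_nil] at h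
    rw [dl_far ay, dl_far az, D.mz] at h; omega
  have m4 : md G (flips c [y, z, z']) x = 2 := by
    have h := md_flips hG c d3 x
    rw [if_neg n4] at h
    simp only [List.map_cons, List.map_nil, List.sum_cons, List.sum_nil] at h
    rw [dl_diff hxy.symm (by rw [cx, cy]; simp), dl_diff hxz.symm (by rw [cx, cz]; simp),
      dl_far xz', mx] at h; omega
  have m5 : md G (flips c [y, z, z', x]) x' = 2 := by
    have h := md_flips hG c d4 x'
    rw [if_neg n5] at h
    simp only [List.map_cons, List.map_nil, List.sum_cons, List.sum_nil] at h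
    rw [dl_diff D.Nx.a1.symm (by rw [cx', cy]; simp), dl_far x'z,
      dl_diff D.Nx.a2.symm (by rw [cx', cz']; simp), dl_far xnx', D.mx] at h; omega
  have t1 : tot G (flips c [y]) = _ := tot_flp hG c y
  have t2 : tot G (flips c [y, z]) = _ := tot_flp hG (flips c [y]) z
  have t3 : tot G (flips c [y, z, z']) = _ := tot_flp hG (flips c [y, z]) z'
  have t4 : tot G (flips c [y, z, z', x]) = _ := tot_flp hG (flips c [y, z, z']) x
  have t5 : tot G (flips c [y, z, z', x, x']) = _ := tot_flp hG (flips c [y, z, z', x]) x'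
  have i1 : imb (flips c [y]) = _ := imb_flp_false (c := c) cy
  have i2 : imb (flips c [y, z]) = _ := imb_flp_false (c := flips c [y]) (v := z)
    (by rw [flips_notMem n2, cz])
  have i3 : imb (flips c [y, z, z']) = _ := imb_flp_false (c := flips c [y, z]) (v := z')
    (by rw [flips_notMem n3, cz'])
  have i4 : imb (flips c [y, z, z', x]) = _ := imb_flp_true (c := flips c [y, z, z']) (v := x)
    (by rw [flips_notMem n4, cx])
  have i5 : imb (flips c [y, z, z', x, x']) = _ := imb_flp_true (c := flips c [y, z, z', x])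
    (v := x') (by rw [flips_notMem n5, cx'])
  have i : imb (flips c [y, z, z', x, x']) = 0 := by
    rw [i5, i4, i3, i2, i1, H.two]; norm_num
  have o : Opt G (flips c [y, z, z', x, x']) := by
    apply Opt_of_Psi_eq P.opt
    unfold Psi
    rw [i, t5, t4, t3, t2, t1, my, m2, m3, m4, m5, H.two]
    norm_num
  have wn : w ∉ ([y, z, z', x, x'] : List V) := by
    simp [S.N.ad.symm, S.N.bd.symm, z'w.symm, (ne_col cx cw).symm, (ne_col cx' cw).symm]
  have hw := md_flips hG c d5 w
  rw [if_neg wn] at hw
  simp only [List.map_cons, List.map_nil, List.sum_cons, List.sum_nil] at hw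
  rw [dl_far yw, dl_far zw, dl_far (fun e => aw e.symm), dl_diff hxw (by rw [cx, cw]; simp),
    dl_far (fun e => x'w e.symm), mw] at hw
  have cp := D.cp
  have mp := D.mp
  have pn : p ∉ ([y, z, z', x, x'] : List V) := by
    have h1 : p ≠ x := by rintro rfl; omega
    have h2 : p ≠ x' := by rintro rfl; have := D.mx; omega
    simp [ne_col cp cy, ne_col cp cz, ne_col cp cz', h1, h2]
  have hp := md_flips hG c d5 p
  rw [if_neg pn] at hp
  simp only [List.map_cons, List.map_nil, List.sum_cons, List.sum_nil] at hp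
  rw [dl_far (fun e => by have := S.ty.2.2 p e cp; omega),
    dl_far (fun e => by have := S.tz.2.2 p e cp; omega),
    dl_diff D.Nz.a3 (by rw [cp, cz']; simp),
    dl_far (fun e => md_zero mx p e (by rw [cp, cx])),
    dl_far (fun e => md_zero D.mx p e (by rw [cp, cx'])), mp] at hp
  exact both2 hG o i (w := w) (p := p) (by rw [flips_notMem wn, cw]) (by omega)
    (by rw [flips_notMem pn, cp]) (by omega)

/-- the other `true` neighbour of a neighbour of an `S3` vertex is again `S3` -/
lemma Hy.next {c : V → Bool} (H : Hy G c) {x y z w : V} (S : S3 G c x y z w)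
    {y2 : V} (h : G.Adj y y2) (cy2 : c y2 = true) : ∃ u u', S3 G c y2 y u u' := by
  have m := S.ty.2.2 y2 h cy2
  rcases H.dich cy2 m h.symm S.ty with h1 | ⟨yb, y', z', zb, p, pb, t, D⟩
  · exact h1
  · exact absurd (H.claim5 S D) (fun h => h)

/-- star 2 -/
lemma Hy.star2 {c : V → Bool} (H : Hy G c) {x y z w wb p p' : V} (S : S3 G c x y z w)
    (N : Nb G wb w p p') (cwb : c wb = false) (cp : c p = true) (mp : md G c p = 1)
    (cp' : c p' = true) (mp' : md G c p' = 1) : False := by
  have P := H.P
  have hT := H.hT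
  have hG := P.reg
  have cx := S.cx
  have cy := S.ty.1
  have cw := S.tw.1
  have my := S.ty.2.1
  have mw := S.tw.2.1
  have mx := S.mx
  have hxy := S.N.a1
  have hxw := S.N.a3
  obtain ⟨yb, y2, Ny, cyb, cy2⟩ := split1' hG my hxy.symm (by rw [cx, cy]; simp)
  rw [cy] at cyb cy2
  replace cy2 : c y2 = true := by rw [cy2]; rfl
  obtain ⟨u, u', S'⟩ := H.next S Ny.a3 cy2
  have hyy2 := Ny.a3
  have my2 := S'.mx
  have hu := S'.N.a2
  have hu' := S'.N.a3
  have tu := S'.tz
  have tu' := S'.tw
  have mu := tu.2.1
  have mu' := tu'.2.1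
  obtain ⟨ub', aub', cub', _⟩ := md_one mu'
  obtain ⟨pb', apb', cpb', _⟩ := md_one mp'
  rw [tu'.1] at cub'
  rw [cp'] at cpb'
  have mwb : md G c wb = 1 := by
    rw [N.md_eq c, cwb, cw, cp, cp']; simp
  obtain ⟨pb, r, Np, cpb, cr⟩ := split1' hG mp N.a2.symm (by rw [cwb, cp]; simp)
  rw [cp] at cpb cr
  replace cr : c r = false := by rw [cr]; rfl
  have mr : md G c r = 0 := by
    have h1 := P.le1 r
    rcases Nat.lt_or_ge (md G c r) 1 with h | h
    · omega
    · exact absurd (P.R1 cp mp cwb mwb cr (by omega) Np.a2 Np.a3 Np.bd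
        (fun e => hT p wb r Np.a2 e Np.a3)) (fun h => h)
  have yw : ¬ G.Adj y w := fun h => hT x y w hxy h hxw
  have y_ne_wb : y ≠ wb := by rintro rfl; exact yw N.a1
  have ywb : ¬ G.Adj y wb := by
    intro h
    have : y = w := uniq_same (P.le1 wb) h.symm N.a1 (by rw [cy, cwb]) (by rw [cw, cwb])
    exact S.N.ad this
  have y2wb : ¬ G.Adj y2 wb := by
    intro h
    rcases N.all y2 h.symm with e | e | e
    · exact ne_col cy2 cw e
    · rw [← e, my2] at mp; exact absurd mp (by simp)
    · rw [← e, my2] at mp'; exact absurd mp' (by simp)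
  have y2x : y2 ≠ x := Ny.bd.symm
  have y2w : ¬ G.Adj y2 w := fun h => H.hQ x y y2 w y2x.symm S.N.ad hxy hyy2 h hxw.symm
  have Tp : ∀ v, T0 G c v → ∀ q, c q = true → md G c q = 1 → ¬ G.Adj v q := fun v tv q h1 h2 h => by
    have := tv.2.2 q h h1; omega
  have Twb : ∀ v, T0 G c v → v ≠ wb := by
    rintro v tv rfl
    exact Tp v tv p cp mp N.a2
  have u_y := S'.N.ab.symm
  have u'_y := S'.N.ad.symm
  have u_w : u ≠ w := by rintro rfl; exact y2w hu
  have u'_w : u' ≠ w := by rintro rfl; exact y2w hu'
  have wbu : ¬ G.Adj wb u := by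
    intro h
    exact u_w (uniq_same (P.le1 wb) h N.a1 (by rw [tu.1, cwb]) (by rw [cw, cwb]))
  have wbu' : ¬ G.Adj wb u' := by
    intro h
    exact u'_w (uniq_same (P.le1 wb) h N.a1 (by rw [tu'.1, cwb]) (by rw [cw, cwb]))
  have yu : ¬ G.Adj y u := fun h => hT y2 y u hyy2.symm h hu
  have yu' : ¬ G.Adj y u' := fun h => hT y2 y u' hyy2.symm h hu'
  have uu' : ¬ G.Adj u u' := fun h => hT y2 u u' hu h hu'
  have y2p : ∀ q, c q = true → ¬ G.Adj y2 q := fun q h1 h => md_zero my2 q h (by rw [h1, cy2])
  have pp' : ¬ G.Adj p p' := fun h => hT wb p p' N.a2 h N.a3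
  have p_y2 : p ≠ y2 := by rintro rfl; omega
  have p'_y2 : p' ≠ y2 := by rintro rfl; omega
  have nd1 : ([y] : List V).Nodup := by simp
  have n2 : u ∉ ([y] : List V) := by simp [u_y]
  have n3 : wb ∉ ([y, u] : List V) := by simp [y_ne_wb.symm, (Twb u tu).symm]
  have n4 : y2 ∉ ([y, u, wb] : List V) := by
    simp [ne_col cy2 cy, ne_col cy2 tu.1, ne_col cy2 cwb]
  have n5 : p ∉ ([y, u, wb, y2] : List V) := by
    simp [ne_col cp cy, ne_col cp tu.1, ne_col cp cwb, p_y2]
  have nd : ([y, u, wb, y2, p] : List V).Nodup := by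
    simp [u_y.symm, y_ne_wb, (ne_col cy2 cy).symm, (ne_col cp cy).symm, Twb u tu,
      (ne_col cy2 tu.1).symm, (ne_col cp tu.1).symm, (ne_col cy2 cwb).symm, (ne_col cp cwb).symm,
      p_y2.symm]
  have key := fun v => md_flips hG c nd v
  simp only [List.map_cons, List.map_nil, List.sum_cons, List.sum_nil] at key
  set L : List V := [y, u, wb, y2, p] with hL
  have vy2 : md G (flips c L) y2 ≤ 1 := by
    have h := key y2
    rw [if_pos (by simp [hL]), dl_diff hyy2 (by rw [cy, cy2]; simp),
      dl_diff hu.symm (by rw [tu.1, cy2]; simp), dl_far (fun e => y2wb e.symm), dl_self,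
      dl_far (fun e => y2p p cp e.symm), my2] at h
    omega
  have vwb : md G (flips c L) wb ≤ 1 := by
    have h := key wb
    rw [if_pos (by simp [hL]), dl_far ywb, dl_far (fun e => wbu e.symm), dl_self, dl_far y2wb,
      dl_diff N.a2.symm (by rw [cp, cwb]; simp), mwb] at h
    omega
  have vp : md G (flips c L) p ≤ 1 := by
    have h := key p
    rw [if_pos (by simp [hL]), dl_far (Tp y S.ty p cp mp), dl_far (Tp u tu p cp mp),
      dl_diff N.a2 (by rw [cp, cwb]; simp), dl_far (y2p p cp), dl_self, mp] at h
    omega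
  have vy : md G (flips c L) y ≤ 1 := by
    have h := key y
    rw [if_pos (by simp [hL]), dl_self, dl_far (fun e => yu e.symm), dl_far (fun e => ywb e.symm),
      dl_diff hyy2.symm (by rw [cy, cy2]; simp), dl_far (fun e => Tp y S.ty p cp mp e.symm), my] at h
    omega
  have vu : md G (flips c L) u ≤ 1 := by
    have h := key u
    rw [if_pos (by simp [hL]), dl_far yu, dl_self, dl_far wbu,
      dl_diff hu (by rw [tu.1, cy2]; simp), dl_far (fun e => Tp u tu p cp mp e.symm), mu] at h
    omega
  have nf : ∀ v, c v = false → v ≠ y → v ≠ u → v ≠ wb → v ∉ L := fun v h1 h2 h3 h4 => by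
    simp [hL, h2, h3, h4, (ne_col cy2 h1).symm, (ne_col cp h1).symm]
  have nn : ∀ v, c v = true → v ≠ y2 → v ≠ p → v ∉ L := fun v h1 h2 h3 => by
    simp [hL, ne_col h1 cy, ne_col h1 tu.1, ne_col h1 cwb, h2, h3]
  have vu' : md G (flips c L) u' ≤ 2 := by
    have h := key u'
    rw [if_neg (nf u' tu'.1 u'_y S'.N.bd.symm (Twb u' tu')), dl_far yu', dl_far uu', dl_far wbu',
      dl_diff hu' (by rw [tu'.1, cy2]; simp), dl_far (fun e => Tp u' tu' p cp mp e.symm), mu'] at h
    omega
  have vp' : md G (flips c L) p' ≤ 2 := by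
    have h := key p'
    rw [if_neg (nn p' cp' p'_y2 N.bd.symm), dl_far (Tp y S.ty p' cp' mp'),
      dl_far (Tp u tu p' cp' mp'), dl_diff N.a3 (by rw [cp', cwb]; simp),
      dl_far (y2p p' cp'), dl_far pp', mp'] at h
    omega
  have dneg : ∀ v u, c v = c u → dl G c v u ≤ 0 := by
    intro v u h
    by_cases a : G.Adj v u
    · rw [dl_same a h.symm]; norm_num
    · rw [dl_far a]
  have oth : ∀ v, v ≠ u' → v ≠ p' → md G (flips c L) v ≤ 1 := by
    intro v v1 v2
    by_cases w1 : v = y
    · rw [w1]; exact vy
    by_cases w2 : v = u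
    · rw [w2]; exact vu
    by_cases w3 : v = wb
    · rw [w3]; exact vwb
    by_cases w4 : v = y2
    · rw [w4]; exact vy2
    by_cases w5 : v = p
    · rw [w5]; exact vp
    have h := key v
    rw [if_neg (by simp [hL, w1, w2, w3, w4, w5])] at h
    have mv := P.le1 v
    cases cv : c v
    · have e1 := dneg y v (by rw [cy, cv])
      have e2 := dneg u v (by rw [tu.1, cv])
      have e3 := dneg wb v (by rw [cwb, cv])
      have e4 : dl G c y2 v = 0 := by
        apply dl_far
        intro a
        rcases S'.N.all v a with e | e | e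
        · exact w1 e
        · exact w2 e
        · exact v1 e
      by_cases a : G.Adj p v
      · have hr : v = r := by
          rcases Np.all v a with e | e | e
          · exact absurd e (ne_col cpb cv).symm
          · exact absurd e w3
          · exact e
        rw [dl_diff a (by rw [cp, cv]; simp), e4] at h
        rw [hr] at h e1 e2 e3 ⊢
        rw [mr] at h
        omega
      · rw [dl_far a, e4] at h
        omega
    · have e4 := dneg y2 v (by rw [cy2, cv])
      have e5 := dneg p v (by rw [cp, cv])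
      have e3 : dl G c wb v = 0 := by
        apply dl_far
        intro a
        rcases N.all v a with e | e | e
        · exact ne_col cv cw e
        · exact w5 e
        · exact v2 e
      by_cases a : G.Adj y v
      · have nu : ¬ G.Adj u v := fun e =>
          H.hQ y2 y v u (Ne.symm w4) u_y.symm hyy2.symm a e.symm hu.symm
        rw [dl_diff a (by rw [cy, cv]; simp), S.ty.2.2 v a cv, dl_far nu, e3] at h
        omega
      · rw [dl_far a] at h
        by_cases b : G.Adj u v
        · rw [dl_diff b (by rw [tu.1, cv]; simp), tu.2.2 v b cv, e3] at h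
          omega
        · rw [dl_far b, e3] at h
          omega
  have i1 : imb (flips c [y]) = _ := imb_flp_false (c := c) cy
  have i2 : imb (flips c [y, u]) = _ := imb_flp_false (c := flips c [y]) (v := u)
    (by rw [flips_notMem n2, tu.1])
  have i3 : imb (flips c [y, u, wb]) = _ := imb_flp_false (c := flips c [y, u]) (v := wb)
    (by rw [flips_notMem n3, cwb])
  have i4 : imb (flips c [y, u, wb, y2]) = _ := imb_flp_true (c := flips c [y, u, wb]) (v := y2)
    (by rw [flips_notMem n4, cy2])
  have i5 : imb (flips c L) = _ := imb_flp_true (c := flips c [y, u, wb, y2]) (v := p)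
    (by rw [flips_notMem n5, cp])
  have i : imb (flips c L) = 0 := by
    rw [i5, i4, i3, i2, i1, H.two]; norm_num
  have cwb3 : flips c L wb = true := by rw [flips_mem nd (by simp [hL]), cwb]; rfl
  have cy23 : flips c L y2 = false := by rw [flips_mem nd (by simp [hL]), cy2]; rfl
  have ub'_u : ub' ≠ u := by rintro rfl; exact uu' aub'.symm
  have ub'_wb : ub' ≠ wb := by rintro rfl; exact wbu' aub'.symm
  have ub'_y : ub' ≠ y := by rintro rfl; exact yu' aub'.symm
  have mpb' : md G c pb' = 1 := by
    have h1 := P.le1 pb'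
    have h2 := one_le_md (c := c) apb'.symm (by rw [cp', cpb'])
    omega
  have pb'_p : pb' ≠ p := by rintro rfl; exact pp' apb'.symm
  have pb'_y2 : pb' ≠ y2 := by rintro rfl; omega
  have vub' : md G (flips c L) ub' ≤ 1 := oth ub' aub'.ne' (ne_col cp' cub').symm
  have vpb' : md G (flips c L) pb' ≤ 1 := oth pb' (ne_col cpb' tu'.1) apb'.ne'
  have B := Bal_P3 (G := G) (c := flips c L) (a := wb) (b := p') (d := pb')
    (a' := y2) (b' := u') (d' := ub')
    ⟨N.a3, apb', (ne_col cpb' cwb).symm, cwb3,
      by rw [flips_notMem (nn p' cp' p'_y2 N.bd.symm), cp'],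
      by rw [flips_notMem (nn pb' cpb' pb'_y2 pb'_p), cpb'], vwb, vp', vpb'⟩
    ⟨hu', aub', ne_col cy2 cub', cy23,
      by rw [flips_notMem (nf u' tu'.1 u'_y S'.N.bd.symm (Twb u' tu')), tu'.1],
      by rw [flips_notMem (nf ub' cub' ub'_y ub'_u ub'_wb), cub'], vy2, vu', vub'⟩
  apply H.no (flips c L)
  apply Bal_univ_of hG i B
  intro v hv
  simp only [Finset.mem_insert, Finset.mem_singleton, not_or] at hv
  exact oth v hv.2.2.2.2.1 hv.2.1

/-- the partner of a neighbour of an `S3` vertex is `T0` -/
lemma Hy.partT0 {c : V → Bool} (H : Hy G c) {x y z w wb : V} (S : S3 G c x y z w)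
    (a : G.Adj w wb) (cwb : c wb = false) : T0 G c wb := by
  have P := H.P
  have mwb : md G c wb = 1 := by
    have h1 := P.le1 wb
    have h2 := one_le_md (c := c) a.symm (by rw [S.tw.1, cwb])
    omega
  obtain ⟨q, b, b', N, cq, cb, cb'⟩ := split1 P.reg mwb
  rw [cwb] at cb cb'
  have hq : q = w := uniq_same (P.le1 wb) N.a1 a.symm cq (by rw [S.tw.1, cwb])
  subst hq
  have m1 := P.le1 b
  have m2 := P.le1 b'
  refine ⟨cwb, mwb, ?_⟩
  rcases Nat.lt_or_ge (md G c b) 1 with h | h
  · rcases Nat.lt_or_ge (md G c b') 1 with h' | h'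
    · intro v hv cv
      rcases N.all v hv with e | e | e
      · exact absurd e (ne_col cv S.tw.1)
      · rw [e]; omega
      · rw [e]; omega
    · exact absurd (H.star1 S N cwb cb (by omega) cb' (by omega)) (fun h => h)
  · rcases Nat.lt_or_ge (md G c b') 1 with h' | h'
    · exact absurd (H.star1 S N.swp cwb cb' (by omega) cb (by omega)) (fun h => h)
    · exact absurd (H.star2 S N cwb cb (by omega) cb' (by omega)) (fun h => h)

/-- claim 7: exchanging the closed neighbourhood -/
lemma Hy.turn {c : V → Bool} (H : Hy G c) {x y z w : V} (S : S3 G c x y z w) :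
    Hy G (cpl (flips c [y, z, w, x])) ∧ S3 G (cpl (flips c [y, z, w, x])) x y z w := by
  have P := H.P
  have hT := H.hT
  have hG := P.reg
  have cx := S.cx
  have cy := S.ty.1
  have cz := S.tz.1
  have cw := S.tw.1
  have my := S.ty.2.1
  have mz := S.tz.2.1
  have mw := S.tw.2.1
  have mx := S.mx
  have hxy := S.N.a1
  have hxz := S.N.a2
  have hxw := S.N.a3
  have yz : ¬ G.Adj y z := fun h => hT x y z hxy h hxz
  have yw : ¬ G.Adj y w := fun h => hT x y w hxy h hxw
  have zw : ¬ G.Adj z w := fun h => hT x z w hxz h hxw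
  have y_z := S.N.ab
  have y_w := S.N.ad
  have z_w := S.N.bd
  have n2 : z ∉ ([y] : List V) := by simp [y_z.symm]
  have n3 : w ∉ ([y, z] : List V) := by simp [y_w.symm, z_w.symm]
  have n4 : x ∉ ([y, z, w] : List V) := by simp [ne_col cx cy, ne_col cx cz, ne_col cx cw]
  have d1 : ([y] : List V).Nodup := by simp
  have d2 : ([y, z] : List V).Nodup := by simp [y_z]
  have d3 : ([y, z, w] : List V).Nodup := by simp [y_z, y_w, z_w]
  have d4 : ([y, z, w, x] : List V).Nodup := by
    simp [y_z, y_w, z_w, (ne_col cx cy).symm, (ne_col cx cz).symm, (ne_col cx cw).symm]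
  have m2 : md G (flips c [y]) z = 1 := by
    have h := md_flips hG c d1 z
    rw [if_neg n2] at h
    simp only [List.map_cons, List.map_nil, List.sum_cons, List.sum_nil] at h
    rw [dl_far yz, mz] at h; omega
  have m3 : md G (flips c [y, z]) w = 1 := by
    have h := md_flips hG c d2 w
    rw [if_neg n3] at h
    simp only [List.map_cons, List.map_nil, List.sum_cons, List.sum_nil] at h
    rw [dl_far yw, dl_far zw, mw] at h; omega
  have m4 : md G (flips c [y, z, w]) x = 3 := by
    have h := md_flips hG c d3 x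
    rw [if_neg n4] at h
    simp only [List.map_cons, List.map_nil, List.sum_cons, List.sum_nil] at h
    rw [dl_diff hxy.symm (by rw [cx, cy]; simp), dl_diff hxz.symm (by rw [cx, cz]; simp),
      dl_diff hxw.symm (by rw [cx, cw]; simp), mx] at h; omega
  have t1 : tot G (flips c [y]) = _ := tot_flp hG c y
  have t2 : tot G (flips c [y, z]) = _ := tot_flp hG (flips c [y]) z
  have t3 : tot G (flips c [y, z, w]) = _ := tot_flp hG (flips c [y, z]) w
  have t4 : tot G (flips c [y, z, w, x]) = _ := tot_flp hG (flips c [y, z, w]) x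
  have i1 : imb (flips c [y]) = _ := imb_flp_false (c := c) cy
  have i2 : imb (flips c [y, z]) = _ := imb_flp_false (c := flips c [y]) (v := z)
    (by rw [flips_notMem n2, cz])
  have i3 : imb (flips c [y, z, w]) = _ := imb_flp_false (c := flips c [y, z]) (v := w)
    (by rw [flips_notMem n3, cw])
  have i4 : imb (flips c [y, z, w, x]) = _ := imb_flp_true (c := flips c [y, z, w]) (v := x)
    (by rw [flips_notMem n4, cx])
  have i : imb (flips c [y, z, w, x]) = -2 := by
    rw [i4, i3, i2, i1, H.two]; norm_num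
  have o : Opt G (flips c [y, z, w, x]) := by
    apply Opt_of_Psi_eq P.opt
    unfold Psi
    rw [i, t4, t3, t2, t1, my, m2, m3, m4, H.two]
    norm_num
    ring
  have key := fun v => md_flips hG c d4 v
  simp only [List.map_cons, List.map_nil, List.sum_cons, List.sum_nil] at key
  have dneg : ∀ v u, c v = c u → dl G c v u ≤ 0 := by
    intro v u h
    by_cases a : G.Adj v u
    · rw [dl_same a h.symm]; norm_num
    · rw [dl_far a]
  have vx : md G (flips c [y, z, w, x]) x = 0 := by
    have h := key x
    rw [if_pos (by simp), dl_self, dl_diff hxy.symm (by rw [cx, cy]; simp),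
      dl_diff hxz.symm (by rw [cx, cz]; simp), dl_diff hxw.symm (by rw [cx, cw]; simp), mx] at h
    omega
  have vy : md G (flips c [y, z, w, x]) y = 1 := by
    have h := key y
    rw [if_pos (by simp), dl_self, dl_far (fun e => yz e.symm), dl_far (fun e => yw e.symm),
      dl_diff hxy (by rw [cx, cy]; simp), my] at h
    omega
  have vz : md G (flips c [y, z, w, x]) z = 1 := by
    have h := key z
    rw [if_pos (by simp), dl_self, dl_far yz, dl_far (fun e => zw e.symm),
      dl_diff hxz (by rw [cx, cz]; simp), mz] at h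
    omega
  have vw : md G (flips c [y, z, w, x]) w = 1 := by
    have h := key w
    rw [if_pos (by simp), dl_self, dl_far yw, dl_far zw,
      dl_diff hxw (by rw [cx, cw]; simp), mw] at h
    omega
  -- common neighbours other than x are excluded
  have cn : ∀ a b v, a ≠ b → G.Adj x a → G.Adj x b → v ≠ x → G.Adj a v → G.Adj b v → False := by
    intro a b v hab ha hb hv h1 h2
    exact H.hQ x a v b (Ne.symm hv) hab ha h1 h2.symm hb.symm
  have hle : ∀ v, md G (flips c [y, z, w, x]) v ≤ 1 := by
    intro v
    by_cases e1 : v = x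
    · rw [e1, vx]; omega
    by_cases e2 : v = y
    · rw [e2, vy]
    by_cases e3 : v = z
    · rw [e3, vz]
    by_cases e4 : v = w
    · rw [e4, vw]
    have h := key v
    rw [if_neg (by simp [e1, e2, e3, e4])] at h
    have mv := P.le1 v
    cases cv : c v
    · have f1 := dneg y v (by rw [cy, cv])
      have f2 := dneg z v (by rw [cz, cv])
      have f3 := dneg w v (by rw [cw, cv])
      have f4 : dl G c x v = 0 := by
        apply dl_far
        intro a
        rcases S.N.all v a with e | e | e
        · exact e2 e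
        · exact e3 e
        · exact e4 e
      omega
    · have f4 : dl G c x v = 0 := by
        apply dl_far
        intro a
        exact md_zero mx v a (by rw [cv, cx])
      rw [f4] at h
      by_cases ay : G.Adj y v
      · rw [dl_diff ay (by rw [cy, cv]; simp), dl_far (fun e => cn y z v y_z hxy hxz e1 ay e),
          dl_far (fun e => cn y w v y_w hxy hxw e1 ay e), S.ty.2.2 v ay cv] at h
        omega
      · rw [dl_far ay] at h
        by_cases az : G.Adj z v
        · rw [dl_diff az (by rw [cz, cv]; simp),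
            dl_far (fun e => cn z w v z_w hxz hxw e1 az e), S.tz.2.2 v az cv] at h
          omega
        · rw [dl_far az] at h
          by_cases aw : G.Adj w v
          · rw [dl_diff aw (by rw [cw, cv]; simp), S.tw.2.2 v aw cv] at h
            omega
          · rw [dl_far aw] at h
            omega
  have colm : ∀ v, v ∈ ([y, z, w, x] : List V) → cpl (flips c [y, z, w, x]) v = c v := by
    intro v hv
    unfold cpl
    rw [flips_mem d4 hv]; simp
  have coln : ∀ v, v ∉ ([y, z, w, x] : List V) → cpl (flips c [y, z, w, x]) v = !(c v) := by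
    intro v hv
    unfold cpl
    rw [flips_notMem hv]
  have tT : ∀ s, (s = y ∨ s = z ∨ s = w) → T0 G c s → md G (flips c [y, z, w, x]) s = 1 →
      G.Adj x s → T0 G (cpl (flips c [y, z, w, x])) s := by
    intro s hs ts ms hxs
    refine ⟨?_, by rw [md_cpl, ms], ?_⟩
    · rw [colm s (by rcases hs with e | e | e <;> simp [e]), ts.1]
    · intro v hv cv
      rw [md_cpl]
      by_cases e1 : v = x
      · rw [e1, vx]
      by_cases e2 : v = y
      · rcases hs with e | e | e
        · rw [e2, e] at hv; exact absurd hv (by simp)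
        · rw [e2, e] at hv; exact absurd hv.symm yz
        · rw [e2, e] at hv; exact absurd hv.symm yw
      by_cases e3 : v = z
      · rcases hs with e | e | e
        · rw [e3, e] at hv; exact absurd hv yz
        · rw [e3, e] at hv; exact absurd hv (by simp)
        · rw [e3, e] at hv; exact absurd hv.symm zw
      by_cases e4 : v = w
      · rcases hs with e | e | e
        · rw [e4, e] at hv; exact absurd hv yw
        · rw [e4, e] at hv; exact absurd hv zw
        · rw [e4, e] at hv; exact absurd hv (by simp)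
      rw [coln v (by simp [e1, e2, e3, e4])] at cv
      have cv' : c v = false := by simpa using cv
      have h := key v
      rw [if_neg (by simp [e1, e2, e3, e4])] at h
      have mv := P.le1 v
      have f1 := dneg y v (by rw [cy, cv'])
      have f2 := dneg z v (by rw [cz, cv'])
      have f3 := dneg w v (by rw [cw, cv'])
      have f4 : dl G c x v = 0 := by
        apply dl_far
        intro a
        exact hT x s v hxs hv a
      have f5 : dl G c s v = -1 := dl_same hv (by rw [cv', ts.1])
      rcases hs with e | e | e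
      · rw [e] at f5; omega
      · rw [e] at f5; omega
      · rw [e] at f5; omega
  refine ⟨⟨⟨hG, Opt_cpl o, ?_, ?_, ?_⟩, ?_, hT, H.hQ, H.no⟩, ⟨S.N, ?_, ?_, ?_, ?_, ?_⟩⟩
  · intro v; rw [md_cpl]; exact hle v
  · rw [imb_cpl, i]; norm_num
  · intro c' h1 h2
    have := P.min c' h1 h2
    rw [imb_cpl, i]
    rw [H.two] at this
    simpa using this
  · rw [imb_cpl, i]; norm_num
  · rw [colm x (by simp), cx]
  · rw [md_cpl, vx]
  · exact tT y (Or.inl rfl) S.ty vy hxy
  · exact tT z (Or.inr (Or.inl rfl)) S.tz vz hxz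
  · exact tT w (Or.inr (Or.inr rfl)) S.tw vw hxw

/-- the second neighbourhood closes up -/
lemma Hy.close {c : V → Bool} (H : Hy G c) {x y z w y2 zb wb : V} (S : S3 G c x y z w)
    (a : G.Adj y y2) (cy2 : c y2 = true) (hne : y2 ≠ x) (az : G.Adj z zb) (czb : c zb = false)
    (aw : G.Adj w wb) (cwb : c wb = false) : G.Adj y2 zb ∧ G.Adj y2 wb := by
  have P := H.P
  have hT := H.hT
  have hG := P.reg
  have cx := S.cx
  have cy := S.ty.1
  have cz := S.tz.1
  have cw := S.tw.1
  have hxy := S.N.a1
  have hxz := S.N.a2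
  have hxw := S.N.a3
  obtain ⟨u, u', S'⟩ := H.next S a cy2
  obtain ⟨H', S4⟩ := H.turn S
  have y_z := S.N.ab
  have y_w := S.N.ad
  have z_w := S.N.bd
  have d4 : ([y, z, w, x] : List V).Nodup := by
    simp [y_z, y_w, z_w, (ne_col cx cy).symm, (ne_col cx cz).symm, (ne_col cx cw).symm]
  have y2n : y2 ∉ ([y, z, w, x] : List V) := by
    simp [ne_col cy2 cy, ne_col cy2 cz, ne_col cy2 cw, hne]
  have cy2' : cpl (flips c [y, z, w, x]) y2 = false := by
    unfold cpl; rw [flips_notMem y2n, cy2]; rfl
  have T' := H'.partT0 S4.rot a cy2'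
  have key := fun v => md_flips hG c d4 v
  simp only [List.map_cons, List.map_nil, List.sum_cons, List.sum_nil] at key
  have y2z : ¬ G.Adj y2 z := fun h => H.hQ x y y2 z hne.symm y_z hxy a h hxz.symm
  have y2w : ¬ G.Adj y2 w := fun h => H.hQ x y y2 w hne.symm y_w hxy a h hxw.symm
  have each : ∀ v, G.Adj y2 v → T0 G c v → v ≠ y → v = zb ∨ v = wb := by
    intro v hv tv vy
    have vz : v ≠ z := by rintro rfl; exact y2z hv
    have vw : v ≠ w := by rintro rfl; exact y2w hv
    have vx : v ≠ x := (ne_col cx tv.1).symm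
    have vn : v ∉ ([y, z, w, x] : List V) := by simp [vy, vz, vw, vx]
    have m := T'.2.2 v hv (by unfold cpl; rw [flips_notMem vn, tv.1]; rfl)
    rw [md_cpl] at m
    have h := key v
    rw [if_neg vn, dl_far (fun e => hT y2 y v a.symm e hv), m, tv.2.1] at h
    have fx : dl G c x v = 0 := by
      apply dl_far
      intro e
      rcases S.N.all v e with e | e | e
      · exact vy e
      · exact vz e
      · exact vw e
    rw [fx] at h
    by_cases h1 : G.Adj z v
    · left
      exact uniq_same (P.le1 z) h1 az (by rw [tv.1, cz]) (by rw [czb, cz])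
    · by_cases h2 : G.Adj w v
      · right
        exact uniq_same (P.le1 w) h2 aw (by rw [tv.1, cw]) (by rw [cwb, cw])
      · rw [dl_far h1, dl_far h2] at h
        omega
  have h1 := each u S'.N.a2 S'.tz S'.N.ab.symm
  have h2 := each u' S'.N.a3 S'.tw S'.N.ad.symm
  have hu := S'.N.a2
  have hu' := S'.N.a3
  have hne2 := S'.N.bd
  rcases h1 with e1 | e1 <;> rcases h2 with e2 | e2
  · exact absurd (e1.trans e2.symm) hne2
  · rw [e1] at hu; rw [e2] at hu'; exact ⟨hu, hu'⟩
  · rw [e1] at hu; rw [e2] at hu'; exact ⟨hu', hu⟩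
  · exact absurd (e1.trans e2.symm) hne2

end Pool.Agent.Helper6_lin
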