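import Pool.Agent.Helper6_lin.Flips

/-!
States of the packing process and one step of it.
-/

set_option linter.unusedSectionVars false
set_option linter.unusedTactic false
set_option linter.unnecessarySeqFocus false
set_option linter.unusedVariables false

namespace Pool.Agent.Helper6_lin

open Finset

variable {V : Type} [Fintype V] [DecidableEq V] {G : SimpleGraph V} [DecidableRel G.Adj]

/-- the vertices `p` and their partners needed by later tokens are unused -/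
def PC (G : SimpleGraph V) [DecidableRel G.Adj] (c : V → Bool) (F : V → Prop) (Blk : Finset V) :
    Prop :=
  ∀ x y yb y' z zb p pb t, D1 G c x y yb y' z zb p pb t → x ∉ Blk → ¬ F p ∧ ¬ F pb

/-- state of the process after `r` steps, without the counting part -/
structure St0 (G : SimpleGraph V) [DecidableRel G.Adj] (c cr : V → Bool) (F : V → Prop)
    (X : Finset V) (r : ℕ) : Prop where
  off : ∀ u, ¬ F u → cr u = c u ∧ md G cr u = md G c u
  XF : ∀ u ∈ X, F u
  bal : Bal G cr X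
  le : ∀ u, u ∉ X → md G cr u ≤ 1
  im : imb cr = imb c - 2 * r

/-- what the two pieces of a unit do -/
structure Res (G : SimpleGraph V) [DecidableRel G.Adj] (c cr c3 : V → Bool) (F TF : V → Prop)
    (X : Finset V) (x y yb y' s t v vb a b : V) : Prop where
  off : ∀ u, ¬ F u → ¬ FF G c x u → ¬ TF u → c3 u = c u ∧ md G c3 u = md G c u
  bal : Bal G c3 X
  im : imb c3 = imb cr - 2
  mx : md G c3 x = 2
  my : md G c3 y = 1
  myb : md G c3 yb + 1 = md G c yb
  my' : md G c3 y' = md G c y' + 1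
  ms : md G c3 s = md G c s + 1
  mt : md G c3 t = md G c t + 1
  mv : md G c3 v = 2
  mvb : md G c3 vb + 1 = md G c vb
  ma : md G c3 a = md G c a + 1
  mb : md G c3 b = md G c b + 1
  oth : ∀ u, u ≠ x → u ≠ y → u ≠ s → u ≠ t → u ≠ yb → u ≠ y' → u ≠ v → u ≠ vb → u ≠ a → u ≠ b →
    md G c3 u = md G cr u
  col : ∀ u, u ≠ x → u ≠ y → u ≠ v → c3 u = cr u
  cx : c3 x = false
  cy : c3 y = true
  cv : c3 v = true

lemma combine (hG : G.IsRegularOfDegree 3) (hT : NoTri G) {c cr : V → Bool} {F TF : V → Prop}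
    {X : Finset V} {r : ℕ} (S : St0 G c cr F X r) {x y s t yb y' v vb a b : V}
    (Nx : Nb G x y s t) (Ny : Nb G y yb x y')
    (cx : c x = true) (ty : T0 G c y) (cs : c s = false) (ct : c t = false)
    (cyb : c yb = false) (cy' : c y' = true)
    (Nv : Nb G v vb a b)
    (cv : c v = false) (cvb : c vb = false) (ca : c a = true) (cb : c b = true)
    (hF : ∀ u, FF G c x u → ¬ F u) (hTF : ∀ u, TF u → ¬ F u)
    (hd : ∀ u, TF u → ¬ FF G c x u)
    (h1 : TF v) (h2 : TF vb) (h3 : TF a) (h4 : TF b) :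
    Res G c cr (flp (flp (flp cr y) x) v) F TF X x y yb y' s t v vb a b := by
  have fx : FF G c x x := Or.inl rfl
  have fy : FF G c x y := Or.inr (Or.inl Nx.a1)
  have fs : FF G c x s := Or.inr (Or.inl Nx.a2)
  have ft : FF G c x t := Or.inr (Or.inl Nx.a3)
  have fyb : FF G c x yb := Or.inr (Or.inr (Or.inr ⟨y, Nx.a1, ty, Ny.a1⟩))
  have fy' : FF G c x y' := Or.inr (Or.inr (Or.inr ⟨y, Nx.a1, ty, Ny.a3⟩))
  have off := S.off
  -- inequalities between the two groups
  have ne : ∀ u w, FF G c x u → TF w → u ≠ w := by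
    intro u w hu hw e
    subst e
    exact hd u hw hu
  obtain ⟨e1, e2, e3, e4, e5, e6, e7, e8⟩ := site hG hT (c := cr) Nx Ny
    (by rw [(off x (hF x fx)).1, cx]) (by rw [(off y (hF y fy)).1, ty.1])
    (by rw [(off s (hF s fs)).1, cs]) (by rw [(off t (hF t ft)).1, ct])
    (by rw [(off yb (hF yb fyb)).1, cyb]) (by rw [(off y' (hF y' fy')).1, cy'])
  have col2 : ∀ u, u ≠ x → u ≠ y → flp (flp cr y) x u = cr u := by
    intro u h1 h2
    rw [flp_ne _ h1, flp_ne _ h2]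
  have cvr : flp (flp cr y) x v = false := by
    rw [col2 v (ne x v fx h1).symm (ne y v fy h1).symm, (off v (hTF v h1)).1, cv]
  have cvbr : flp (flp cr y) x vb = false := by
    rw [col2 vb (ne x vb fx h2).symm (ne y vb fy h2).symm, (off vb (hTF vb h2)).1, cvb]
  have car : flp (flp cr y) x a = true := by
    rw [col2 a (ne x a fx h3).symm (ne y a fy h3).symm, (off a (hTF a h3)).1, ca]
  have cbr : flp (flp cr y) x b = true := by
    rw [col2 b (ne x b fx h4).symm (ne y b fy h4).symm, (off b (hTF b h4)).1, cb]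
  obtain ⟨t1, t2, t3, t4, t5, t6⟩ := token hG (c := flp (flp cr y) x) Nv cvr cvbr car cbr
  have tok : ∀ u, FF G c x u → md G (flp (flp (flp cr y) x) v) u = md G (flp (flp cr y) x) u := by
    intro u hu
    exact t6 u (ne u v hu h1) (ne u vb hu h2) (ne u a hu h3) (ne u b hu h4)
  have sit : ∀ u, TF u → md G (flp (flp cr y) x) u = md G c u := by
    intro u hu
    rw [e8 u (ne x u fx hu).symm (ne y u fy hu).symm (ne s u fs hu).symm (ne t u ft hu).symm
      (ne yb u fyb hu).symm (ne y' u fy' hu).symm, (off u (hTF u hu)).2]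
  refine ⟨?_, ?_, ?_, ?_, ?_, ?_, ?_, ?_, ?_, ?_, ?_, ?_, ?_, ?_, ?_, ?_, ?_, ?_⟩
  · intro u hF1 hF2 hF3
    have n1 : ∀ w, FF G c x w → u ≠ w := by rintro w hw rfl; exact hF2 hw
    have n2 : ∀ w, TF w → u ≠ w := by rintro w hw rfl; exact hF3 hw
    constructor
    · rw [flp_ne _ (n2 v h1), col2 u (n1 x fx) (n1 y fy), (off u hF1).1]
    · rw [t6 u (n2 v h1) (n2 vb h2) (n2 a h3) (n2 b h4), e8 u (n1 x fx) (n1 y fy) (n1 s fs)
        (n1 t ft) (n1 yb fyb) (n1 y' fy'), (off u hF1).2]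
  · -- Bal
    have hXn : ∀ u ∈ X, ∀ w, G.Adj u w → w ≠ x ∧ w ≠ y ∧ w ≠ v := by
      intro u hu w hw
      have hFu := S.XF u hu
      refine ⟨?_, ?_, ?_⟩
      · rintro rfl
        have : FF G c w u := Or.inr (Or.inl hw.symm)
        exact hF u this hFu
      · rintro rfl
        have : FF G c x u := Or.inr (Or.inr (Or.inr ⟨w, Nx.a1, ty, hw.symm⟩))
        exact hF u this hFu
      · rintro rfl
        rcases Nv.all u hw.symm with h | h | h
        · rw [h] at hFu; exact hTF vb h2 hFu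
        · rw [h] at hFu; exact hTF a h3 hFu
        · rw [h] at hFu; exact hTF b h4 hFu
    apply Bal_congr S.bal
    · intro u hu
      have hFu := S.XF u hu
      have n1 : u ≠ x := by rintro rfl; exact hF _ fx hFu
      have n2 : u ≠ y := by rintro rfl; exact hF _ fy hFu
      have n3 : u ≠ v := by rintro rfl; exact hTF _ h1 hFu
      rw [flp_ne _ n3, flp_ne _ n1, flp_ne _ n2]
    · intro u hu w hw
      obtain ⟨n1, n2, n3⟩ := hXn u hu w hw
      rw [flp_ne _ n3, flp_ne _ n1, flp_ne _ n2]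
  · rw [t5, e7]
  · rw [tok x fx, e1]
  · rw [tok y fy, e2]
  · rw [tok yb fyb, e3, (off yb (hF yb fyb)).2]
  · rw [tok y' fy', e4, (off y' (hF y' fy')).2]
  · rw [tok s fs, e5, (off s (hF s fs)).2]
  · rw [tok t ft, e6, (off t (hF t ft)).2]
  · exact t1
  · rw [t2, sit vb h2]
  · rw [t3, sit a h3]
  · rw [t4, sit b h4]
  · intro u n1 n2 n3 n4 n5 n6 n7 n8 n9 n10
    rw [t6 u n7 n8 n9 n10, e8 u n1 n2 n3 n4 n5 n6]
  · intro u n1 n2 n3
    rw [flp_ne _ n3, col2 u n1 n2]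
  · rw [flp_ne _ (ne x v fx h1), flp_same, flp_ne _ Nx.a1.ne, (off x (hF x fx)).1, cx]; rfl
  · rw [flp_ne _ (ne y v fy h1), flp_ne _ Nx.a1.ne', flp_same, (off y (hF y fy)).1, ty.1]; rfl
  · rw [flp_same, cvr]; rfl

/-- unit made of a path on three vertices on each side -/
lemma unit0 (hG : G.IsRegularOfDegree 3) (hT : NoTri G) {c cr : V → Bool}
    (hle : ∀ u, md G c u ≤ 1) {F : V → Prop}
    {X : Finset V} {r : ℕ} (S : St0 G c cr F X r) {x y s t yb y' : V} (D : D0 G c x y yb y' s t)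
    {v vb a b : V} (Nv : Nb G v vb a b) (tv : T0 G c v) (cvb : c vb = false) (ca : c a = true)
    (cb : c b = true)
    (hF : ∀ u, FF G c x u → ¬ F u) (hTF : ∀ u, TF0 G v u → ¬ F u)
    (hd : ∀ u, TF0 G v u → ¬ FF G c x u) :
    ∃ c3 X3, St0 G c c3 (fun u => F u ∨ FF G c x u ∨ TF0 G v u) X3 (r + 1) := by
  have h1 : TF0 G v v := Or.inl rfl
  have h2 : TF0 G v vb := Or.inr Nv.a1
  have h3 : TF0 G v a := Or.inr Nv.a2
  have h4 : TF0 G v b := Or.inr Nv.a3
  have R := combine hG hT S D.Nx D.Ny D.cx D.ty D.cs D.ct D.cyb D.cy' Nv tv.1 cvb ca cb hF hTF hd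
    h1 h2 h3 h4
  set c3 := flp (flp (flp cr y) x) v with hc3
  have fx : FF G c x x := Or.inl rfl
  have fy : FF G c x y := Or.inr (Or.inl D.Nx.a1)
  have fs : FF G c x s := Or.inr (Or.inl D.Nx.a2)
  have ft : FF G c x t := Or.inr (Or.inl D.Nx.a3)
  have ne : ∀ u w, FF G c x u → TF0 G v w → u ≠ w := by
    intro u w hu hw e
    subst e
    exact hd u hw hu
  have cs3 : c3 s = false := by
    rw [R.col s D.Nx.a2.ne' D.Nx.ab.symm (ne s v fs h1), (S.off s (hF s fs)).1, D.cs]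
  have ct3 : c3 t = false := by
    rw [R.col t D.Nx.a3.ne' D.Nx.ad.symm (ne t v ft h1), (S.off t (hF t ft)).1, D.ct]
  have ca3 : c3 a = true := by
    rw [R.col a (ne x a fx h3).symm (ne y a fy h3).symm Nv.a2.ne', (S.off a (hTF a h3)).1, ca]
  have cb3 : c3 b = true := by
    rw [R.col b (ne x b fx h4).symm (ne y b fy h4).symm Nv.a3.ne', (S.off b (hTF b h4)).1, cb]
  have ma0 : md G c a = 0 := tv.2.2 a Nv.a2 ca
  have mb0 : md G c b = 0 := tv.2.2 b Nv.a3 cb
  have my'0 : md G c y' = 0 := D.ty.2.2 y' D.Ny.a3 D.cy'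
  have B := Bal_P3 (G := G) (c := c3) (a := a) (b := v) (d := b) (a' := s) (b' := x) (d' := t)
    ⟨Nv.a2.symm, Nv.a3, Nv.bd, ca3, R.cv, cb3, by rw [R.ma, ma0], by rw [R.mv], by rw [R.mb, mb0]⟩
    ⟨D.Nx.a2.symm, D.Nx.a3, D.Nx.bd, cs3, R.cx, ct3, by rw [R.ms, D.ms], by rw [R.mx],
      by rw [R.mt, D.mt]⟩
  have hXm : ∀ u ∈ ({a, v, b, s, x, t} : Finset V), FF G c x u ∨ TF0 G v u := by
    intro u hu
    simp only [Finset.mem_insert, Finset.mem_singleton] at hu
    rcases hu with rfl | rfl | rfl | rfl | rfl | rfl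
    · exact Or.inr h3
    · exact Or.inr h1
    · exact Or.inr h4
    · exact Or.inl fs
    · exact Or.inl fx
    · exact Or.inl ft
  refine ⟨c3, X ∪ {a, v, b, s, x, t}, ?_, ?_, ?_, ?_, ?_⟩
  · intro u hu
    push Not at hu
    exact R.off u hu.1 hu.2.1 hu.2.2
  · intro u hu
    rcases Finset.mem_union.mp hu with h | h
    · exact Or.inl (S.XF u h)
    · exact Or.inr (hXm u h)
  · apply Bal_union R.bal B
    rw [Finset.disjoint_left]
    intro u hu hu2
    rcases hXm u hu2 with h | h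
    · exact hF u h (S.XF u hu)
    · exact hTF u h (S.XF u hu)
  · intro u hu
    rw [Finset.mem_union, not_or] at hu
    simp only [Finset.mem_insert, Finset.mem_singleton, not_or] at hu
    obtain ⟨hu1, n3, n1, n4, n5, n6, n7⟩ := hu
    by_cases e1 : u = y
    · rw [e1, R.my]
    by_cases e2 : u = yb
    · have := R.myb; have := hle yb; rw [e2]; omega
    by_cases e3 : u = y'
    · rw [e3, R.my', my'0]
    by_cases e4 : u = vb
    · have := R.mvb; have := hle vb; rw [e4]; omega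
    rw [R.oth u n6 e1 n5 n7 e2 e3 n1 e4 n3 n4]
    exact S.le u hu1
  · rw [R.im, S.im]; push_cast; ring

/-- unit made of a path on four vertices on each side -/
lemma unit1 (hG : G.IsRegularOfDegree 3) (hT : NoTri G) {c cr : V → Bool}
    (P : PS G c) {F : V → Prop}
    {X : Finset V} {r : ℕ} (S : St0 G c cr F X r) {x y yb y' z zb p pb t : V}
    (D : D1 G c x y yb y' z zb p pb t)
    {x2 y2 yb2 y2' z2 zb2 p2 pb2 t2 : V} (E : D1 G c x2 y2 yb2 y2' z2 zb2 p2 pb2 t2)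
    (hF : ∀ u, FF G c x u → ¬ F u) (hTF : ∀ u, TF1 G c x2 y2 yb2 z2 zb2 p2 pb2 u → ¬ F u)
    (hd : ∀ u, TF1 G c x2 y2 yb2 z2 zb2 p2 pb2 u → ¬ FF G c x u) :
    ∃ c3 X3, St0 G c c3 (fun u => F u ∨ FF G c x u ∨ TF1 G c x2 y2 yb2 z2 zb2 p2 pb2 u) X3
      (r + 1) := by
  set TF := TF1 G c x2 y2 yb2 z2 zb2 p2 pb2 with hTFdef
  have h1 : TF z2 := Or.inl rfl
  have h2 : TF zb2 := Or.inr (Or.inl rfl)
  have h3 : TF x2 := Or.inr (Or.inr (Or.inl rfl))
  have h4 : TF p2 := Or.inr (Or.inr (Or.inr (Or.inl rfl)))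
  have h5 : TF pb2 := Or.inr (Or.inr (Or.inr (Or.inr (Or.inl rfl))))
  have R := combine hG hT S D.Nx D.Ny D.cx D.ty D.cz D.ct D.cyb D.cy' E.Nz E.cz E.czb E.cx E.cp
    hF hTF hd h1 h2 h3 h4
  set c3 := flp (flp (flp cr y) x) z2 with hc3
  have fx : FF G c x x := Or.inl rfl
  have fy : FF G c x y := Or.inr (Or.inl D.Nx.a1)
  have fz : FF G c x z := Or.inr (Or.inl D.Nx.a2)
  have ft : FF G c x t := Or.inr (Or.inl D.Nx.a3)
  have fyb : FF G c x yb := Or.inr (Or.inr (Or.inr ⟨y, D.Nx.a1, D.ty, D.Ny.a1⟩))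
  have fy' : FF G c x y' := Or.inr (Or.inr (Or.inr ⟨y, D.Nx.a1, D.ty, D.Ny.a3⟩))
  have fzb : FF G c x zb := Or.inr (Or.inr (Or.inl ⟨z, D.Nx.a2, D.Nz.a1, by rw [D.czb, D.cz]⟩))
  have ne : ∀ u w, FF G c x u → TF w → u ≠ w := by
    intro u w hu hw e
    subst e
    exact hd u hw hu
  have mzb := D.zb1 P
  have my'0 : md G c y' = 0 := D.ty.2.2 y' D.Ny.a3 D.cy'
  have myb := D.yb1 P
  have mpb2 := E.pb1 P
  have mzb2 := E.zb1 P
  -- distinctness
  have zb_ne_y : zb ≠ y := by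
    rintro rfl
    exact hT x zb z D.Nx.a1 D.Nz.a1.symm D.Nx.a2
  have zb_ne_yb : zb ≠ yb := by
    rintro rfl
    have : z = y := uniq_same (P.le1 zb) D.Nz.a1.symm D.Ny.a1.symm (by rw [D.cz, D.czb])
      (by rw [D.ty.1, D.czb])
    exact D.Nx.ab this.symm
  have zb_ne_t : zb ≠ t := by
    rintro rfl
    rw [D.mt] at mzb; exact absurd mzb (by simp)
  have zb_ne_x : zb ≠ x := by
    rintro rfl
    have := D.czb; rw [D.cx] at this; exact absurd this (by simp)
  have zb_ne_y' : zb ≠ y' := by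
    rintro rfl
    have := D.czb; rw [D.cy'] at this; exact absurd this (by simp)
  have pb2_ne_x2 : pb2 ≠ x2 := by
    rintro rfl
    rw [E.mx] at mpb2; exact absurd mpb2 (by simp)
  have pb2_ne_z2 : pb2 ≠ z2 := by
    rintro rfl
    have := E.cpb; rw [E.cz] at this; exact absurd this (by simp)
  have pb2_ne_zb2 : pb2 ≠ zb2 := by
    rintro rfl
    have := E.cpb; rw [E.czb] at this; exact absurd this (by simp)
  -- colours
  have cz3 : c3 z = false := by
    rw [R.col z D.Nx.a2.ne' D.Nx.ab.symm (ne z z2 fz h1), (S.off z (hF z fz)).1, D.cz]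
  have ct3 : c3 t = false := by
    rw [R.col t D.Nx.a3.ne' D.Nx.ad.symm (ne t z2 ft h1), (S.off t (hF t ft)).1, D.ct]
  have czb3 : c3 zb = false := by
    rw [R.col zb zb_ne_x zb_ne_y (ne zb z2 fzb h1), (S.off zb (hF zb fzb)).1, D.czb]
  have cx23 : c3 x2 = true := by
    rw [R.col x2 (ne x x2 fx h3).symm (ne y x2 fy h3).symm E.Nz.a2.ne', (S.off x2 (hTF x2 h3)).1,
      E.cx]
  have cp23 : c3 p2 = true := by
    rw [R.col p2 (ne x p2 fx h4).symm (ne y p2 fy h4).symm E.Nz.a3.ne', (S.off p2 (hTF p2 h4)).1,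
      E.cp]
  have cpb23 : c3 pb2 = true := by
    rw [R.col pb2 (ne x pb2 fx h5).symm (ne y pb2 fy h5).symm pb2_ne_z2,
      (S.off pb2 (hTF pb2 h5)).1, E.cpb]
  -- degrees of the two end vertices not touched
  have mzb3 : md G c3 zb = 1 := by
    rw [R.oth zb zb_ne_x zb_ne_y D.Nz.a1.ne' zb_ne_t zb_ne_yb zb_ne_y' (ne zb z2 fzb h1)
      (ne zb zb2 fzb h2) (ne zb x2 fzb h3) (ne zb p2 fzb h4), (S.off zb (hF zb fzb)).2, mzb]
  have mpb3 : md G c3 pb2 = 1 := by
    rw [R.oth pb2 (ne x pb2 fx h5).symm (ne y pb2 fy h5).symm (ne z pb2 fz h5).symm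
      (ne t pb2 ft h5).symm (ne yb pb2 fyb h5).symm (ne y' pb2 fy' h5).symm pb2_ne_z2 pb2_ne_zb2
      pb2_ne_x2 E.ap.ne', (S.off pb2 (hTF pb2 h5)).2, mpb2]
  have B := Bal_P4 (G := G) (c := c3) (a := x2) (b := z2) (d := p2) (e := pb2)
    (a' := zb) (b' := z) (d' := x) (e' := t)
    ⟨E.Nz.a2.symm, E.Nz.a3, E.ap, E.Nz.bd, pb2_ne_x2.symm, pb2_ne_z2.symm, cx23, R.cv, cp23, cpb23,
      by rw [R.ma, E.mx], by rw [R.mv], by rw [R.mb, E.mp], by rw [mpb3]⟩
    ⟨D.Nz.a1.symm, D.Nx.a2.symm, D.Nx.a3, zb_ne_x, zb_ne_t, D.Nx.bd, czb3, cz3, R.cx, ct3,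
      by rw [mzb3], by rw [R.ms, D.mz], by rw [R.mx], by rw [R.mt, D.mt]⟩
  have hXm : ∀ u ∈ ({x2, z2, p2, pb2, zb, z, x, t} : Finset V), FF G c x u ∨ TF u := by
    intro u hu
    simp only [Finset.mem_insert, Finset.mem_singleton] at hu
    rcases hu with rfl | rfl | rfl | rfl | rfl | rfl | rfl | rfl
    · exact Or.inr h3
    · exact Or.inr h1
    · exact Or.inr h4
    · exact Or.inr h5
    · exact Or.inl fzb
    · exact Or.inl fz
    · exact Or.inl fx
    · exact Or.inl ft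
  refine ⟨c3, X ∪ {x2, z2, p2, pb2, zb, z, x, t}, ?_, ?_, ?_, ?_, ?_⟩
  · intro u hu
    push Not at hu
    exact R.off u hu.1 hu.2.1 hu.2.2
  · intro u hu
    rcases Finset.mem_union.mp hu with h | h
    · exact Or.inl (S.XF u h)
    · exact Or.inr (hXm u h)
  · apply Bal_union R.bal B
    rw [Finset.disjoint_left]
    intro u hu hu2
    rcases hXm u hu2 with h | h
    · exact hF u h (S.XF u hu)
    · exact hTF u h (S.XF u hu)
  · intro u hu
    rw [Finset.mem_union, not_or] at hu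
    simp only [Finset.mem_insert, Finset.mem_singleton, not_or] at hu
    obtain ⟨hu1, n1, n2, n3, n4, n5, n6, n7, n8⟩ := hu
    by_cases e1 : u = y
    · rw [e1, R.my]
    by_cases e2 : u = yb
    · have := R.myb; rw [e2]; omega
    by_cases e3 : u = y'
    · rw [e3, R.my', my'0]
    by_cases e4 : u = zb2
    · have := R.mvb; rw [e4]; omega
    rw [R.oth u n7 e1 n6 n8 e2 e3 n2 e4 n1 n3]
    exact S.le u hu1
  · rw [R.im, S.im]; push_cast; ring

end Pool.Agent.Helper6_lin
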